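import Pool.Agent.AIR.Roots

/-!
# Comparison of the cocycles of two parabolic subgroups
-/

set_option autoImplicit false

namespace Pool.Agent.AIR

open Pool.Agent.Helper63.TD Pool.Agent.Helper54.LA Pool.Agent.Helper13.LT Pool.Agent.Helper3.FJ

variable {S : Type} {M : CoxeterMatrix S}

/-! ### Minimal representatives -/

/-- Minimal representatives are constant on cosets. -/
theorem mr_left {X : Set S} {u : M.Group} (hu : u ∈ WX M X) (g : M.Group) :
    mr M X (u * g) = mr M X g := by
  have h := mr_unique (mul_mem hu (mr_mem (M := M) X g)) (mr_mn X g)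
  have e : u * (g * (mr M X g)⁻¹) * mr M X g = u * g := by group
  rwa [e] at h

theorem mr_of_mn {X : Set S} {m : M.Group} (hm : Mn M X m) : mr M X m = m := by
  have h := mr_unique (M := M) (one_mem (WX M X)) hm
  rwa [one_mul] at h

theorem mn_one (X : Set S) : Mn M X 1 := fun x _ => by
  rw [inv_one, ac_one]
  exact Finsupp.single_nonneg.2 zero_le_one

theorem mr_one (X : Set S) : mr M X 1 = 1 := mr_of_mn (mn_one X)

/-- The root of a panel is in the span iff the root at the minimal representative is. -/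
theorem mem_iff {X : Set S} (g : M.Group) (v : S →₀ ℝ) :
    ac M g v ∈ VX X ↔ ac M (mr M X g) v ∈ VX X := by
  have e : g = g * (mr M X g)⁻¹ * mr M X g := by group
  conv_lhs => rw [e, ac_mul]
  exact ac_mem_VX (mr_mem X g) _

theorem cmp_al_mem {X : Set S} {x : S} (hx : x ∈ X) : al x ∈ VX X := by
  rw [mem_VX]
  intro s hs
  exact Finsupp.single_eq_of_ne fun h => hs (h ▸ hx)

theorem mr_in {X : Set S} {g : M.Group} {s x : S} (hx : x ∈ X)
    (h : ac M (mr M X g) (al s) = al x) :
    mr M X (g * M.simple s) = mr M X g ∧ mr M X g * M.simple s = M.simple x * mr M X g := by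
  have e := refl_eq (M := M) (g := mr M X g) (h := 1) (s := s) (t := x) (by rw [h, ac_one])
  rw [one_mul, inv_one, mul_one, mul_inv_eq_iff_eq_mul] at e
  refine ⟨?_, e⟩
  have e2 : g * M.simple s = g * (mr M X g)⁻¹ * M.simple x * mr M X g := by
    rw [mul_assoc (g * (mr M X g)⁻¹), ← e]
    group
  rw [e2]
  exact mr_unique (mul_mem (mr_mem X g) (Subgroup.subset_closure ⟨x, hx, rfl⟩)) (mr_mn X g)

theorem mr_out {X : Set S} {g : M.Group} {s : S} (h : ac M g (al s) ∉ VX X) :
    mr M X (g * M.simple s) = mr M X g * M.simple s := by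
  rw [mem_iff] at h
  have e2 : g * M.simple s = g * (mr M X g)⁻¹ * (mr M X g * M.simple s) := by group
  rw [e2]
  exact mr_unique (mr_mem X g) (mn_mul (mr_mn X g) h)

/-! ### Labels -/

theorem cmp_al_inj {s t : S} (h : al s = al t) : s = t := Finsupp.single_left_injective one_ne_zero h

theorem lab_in {X : Set S} {g : M.Group} {s : S} (x : X)
    (h : ac M (mr M X g) (al s) = al x.1) : lab M X g s = gn (res M X) x := by
  classical
  have hex : ∃ x : X, ac M (mr M X g) (al s) = al x.1 := ⟨x, h⟩
  rw [lab, dif_pos hex]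
  have : hex.choose = x := Subtype.ext (cmp_al_inj (hex.choose_spec.symm.trans h))
  rw [this]
  rfl

theorem lab_out {X : Set S} {g : M.Group} {s : S} (h : ac M g (al s) ∉ VX X) :
    lab M X g s = 1 := by
  classical
  rw [lab, dif_neg]
  rintro ⟨x, hx⟩
  rw [mem_iff, hx] at h
  exact h (cmp_al_mem x.2)

theorem lab_congr {X : Set S} {g h : M.Group} {s t : S}
    (e : ∀ x ∈ X, ac M (mr M X g) (al s) = al x ↔ ac M (mr M X h) (al t) = al x) :
    lab M X g s = lab M X h t := by
  by_cases hx : ∃ x ∈ X, ac M (mr M X g) (al s) = al x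
  · obtain ⟨x, hxX, hx⟩ := hx
    rw [lab_in ⟨x, hxX⟩ hx, lab_in ⟨x, hxX⟩ ((e x hxX).1 hx)]
  · rw [lab_out, lab_out]
    · intro h1
      rw [mem_iff] at h1
      obtain ⟨x, hxX, h2⟩ := deodhar (mr_mn X h) h1
      exact hx ⟨x, hxX, (e x hxX).2 h2⟩
    · intro h1
      rw [mem_iff] at h1
      obtain ⟨x, hxX, h2⟩ := deodhar (mr_mn X g) h1
      exact hx ⟨x, hxX, h2⟩

/-! ### Cocycles -/

theorem art_induction {P : ArtinGroup M → Prop} (of : ∀ s, P (gn M s)) (one : P 1)
    (mul : ∀ a b, P a → P b → P (a * b)) (inv : ∀ a, P a → P a⁻¹) (a : ArtinGroup M) : P a := by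
  have h : a ∈ Subgroup.closure (Set.range (PresentedGroup.of (rels := artinRels M))) := by
    rw [PresentedGroup.closure_range_of]
    trivial
  induction h using Subgroup.closure_induction with
  | mem x hx =>
    obtain ⟨s, rfl⟩ := hx
    exact of s
  | one => exact one
  | mul x y _ _ hx hy => exact mul x y hx hy
  | inv x _ hx => exact inv x hx

namespace IsCoc

variable {X : Set S} {c : M.Group → ArtinGroup M → ArtinGroup (res M X)} (hc : IsCoc M X c)

include hc in
theorem one (g : M.Group) : c g 1 = 1 := by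
  have h := hc.mul g 1 1
  rw [mul_one, map_one, mul_one] at h
  exact mul_eq_left.1 h.symm

include hc in
theorem inv (g : M.Group) (a : ArtinGroup M) : c g a⁻¹ = (c (g * (pr M a)⁻¹) a)⁻¹ := by
  have h := hc.mul g a⁻¹ a
  rw [inv_mul_cancel, hc.one, map_inv] at h
  exact eq_inv_of_mul_eq_one_left h.symm

end IsCoc

theorem coc_left {X : Set S} {c : M.Group → ArtinGroup M → ArtinGroup (res M X)}
    (hc : IsCoc M X c) {u : M.Group} (hu : u ∈ WX M X) (g : M.Group) (a : ArtinGroup M) :
    c (u * g) a = c g a := by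
  induction a using art_induction generalizing g with
  | of s =>
    rw [hc.of, hc.of]
    refine lab_congr fun x _ => ?_
    rw [mr_left hu]
  | one => rw [hc.one, hc.one]
  | mul a b iha ihb => rw [hc.mul, hc.mul, iha, mul_assoc, ihb]
  | inv a ih => rw [hc.inv, hc.inv, mul_assoc, ih]

theorem coc_fix {X : Set S} {c : M.Group → ArtinGroup M → ArtinGroup (res M X)}
    (hc : IsCoc M X c) {z : M.Group} (hz : ∀ x ∈ X, ac M z (al x) = al x) (g : M.Group)
    (a : ArtinGroup M) : c (z * g) a = c g a := by
  have hz' : ∀ x ∈ X, ac M z⁻¹ (al x) = al x := by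
    intro x hx
    conv_lhs => rw [← hz x hx, ← ac_mul, inv_mul_cancel, ac_one]
  have hcomm : ∀ b ∈ WX M X, z * b * z⁻¹ = b := by
    intro b hb
    induction hb using Subgroup.closure_induction with
    | mem y hy =>
      obtain ⟨x, hx, rfl⟩ := hy
      have e := refl_eq (M := M) (g := z) (h := 1) (s := x) (t := x) (by rw [hz x hx, ac_one])
      rwa [one_mul, inv_one, mul_one] at e
    | one => group
    | mul x y _ _ hx hy =>
      have e : z * (x * y) * z⁻¹ = z * x * z⁻¹ * (z * y * z⁻¹) := by group
      rw [e, hx, hy]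
    | inv x _ hx =>
      have e : z * x⁻¹ * z⁻¹ = (z * x * z⁻¹)⁻¹ := by group
      rw [e, hx]
  have hmr : ∀ g, mr M X (z * g) = z * mr M X g := by
    intro g
    have hm : Mn M X (z * mr M X g) := by
      intro x hx
      rw [mul_inv_rev, ac_mul, hz' x hx]
      exact mr_mn X g x hx
    have e : z * g = g * (mr M X g)⁻¹ * (z * mr M X g) := by
      have := hcomm _ (mr_mem X g)
      rw [mul_inv_eq_iff_eq_mul] at this
      rw [← mul_assoc, ← this]
      group
    rw [e]
    exact mr_unique (mr_mem X g) hm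
  induction a using art_induction generalizing g with
  | of s =>
    rw [hc.of, hc.of]
    refine lab_congr fun x hx => ?_
    rw [hmr, ac_mul]
    constructor
    · intro h
      have h2 := congrArg (ac M z⁻¹) h
      rwa [← ac_mul, inv_mul_cancel, ac_one, hz' x hx] at h2
    · intro h
      rw [h, hz x hx]
  | one => rw [hc.one, hc.one]
  | mul a b iha ihb => rw [hc.mul, hc.mul, iha, mul_assoc, ihb]
  | inv a ih => rw [hc.inv, hc.inv, mul_assoc, ih]

theorem pr_toAll {X : Set S} (a : ArtinGroup (res M X)) : pr M (toAll M X a) ∈ WX M X := by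
  induction a using art_induction with
  | of s =>
    rw [gn, toAll_of]
    have := pr_gn M s.1
    rw [gn] at this
    rw [this]
    exact Subgroup.subset_closure ⟨s.1, s.2, rfl⟩
  | one =>
    rw [map_one, map_one]
    exact one_mem _
  | mul a b iha ihb =>
    rw [map_mul, map_mul]
    exact mul_mem iha ihb
  | inv a ih =>
    rw [map_inv, map_inv]
    exact inv_mem ih

theorem toAll_gn (X : Set S) (x : X) : toAll M X (gn (res M X) x) = gn M x.1 := toAll_of M X x

theorem coc_toAll {X : Set S} {c : M.Group → ArtinGroup M → ArtinGroup (res M X)}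
    (hc : IsCoc M X c) (a : ArtinGroup (res M X)) : c 1 (toAll M X a) = a := by
  have key : ∀ (b : ArtinGroup (res M X)) (d : ArtinGroup M),
      c (pr M (toAll M X b)) d = c 1 d := by
    intro b d
    have h := coc_left hc (pr_toAll b) 1 d
    rwa [mul_one] at h
  induction a using art_induction with
  | of s =>
    rw [toAll_gn, hc.of]
    exact lab_in s (by rw [mr_one, ac_one])
  | one => rw [map_one, hc.one]
  | mul a b iha ihb => rw [map_mul, hc.mul, one_mul, key, iha, ihb]
  | inv a ih =>
    rw [map_inv, hc.inv, one_mul]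
    have h := coc_left hc (inv_mem (pr_toAll a)) 1 (toAll M X a)
    rw [mul_one] at h
    rw [h, ih]

/-- The part of `g` in the parabolic subgroup. -/
theorem part_mul {Y : Set S} {c : M.Group → ArtinGroup M → ArtinGroup (res M Y)}
    (hc : IsCoc M Y c) (g : M.Group) (a : ArtinGroup M) :
    g * pr M a * (mr M Y (g * pr M a))⁻¹ = g * (mr M Y g)⁻¹ * pr M (toAll M Y (c g a)) := by
  induction a using art_induction generalizing g with
  | of s =>
    rw [pr_gn, hc.of]
    by_cases h : ac M g (al s) ∈ VX Y
    · have h' := h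
      rw [mem_iff] at h'
      obtain ⟨y, hy, h2⟩ := deodhar (mr_mn Y g) h'
      obtain ⟨h3, h4⟩ := mr_in hy h2
      rw [lab_in ⟨y, hy⟩ h2, toAll_gn, pr_gn, h3, mul_assoc g, mul_assoc g]
      congr 1
      rw [eq_comm, inv_mul_eq_iff_eq_mul, ← mul_assoc, h4]
      group
    · rw [lab_out h, map_one, map_one, mr_out h]
      group
  | one =>
    rw [hc.one, map_one, map_one, map_one]
    group
  | mul a b iha ihb =>
    rw [hc.mul, map_mul, map_mul, map_mul, ← mul_assoc g, ihb (g * pr M a), iha, mul_assoc]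
  | inv a ih =>
    have h := ih (g * (pr M a)⁻¹)
    rw [inv_mul_cancel_right] at h
    rw [hc.inv, map_inv, map_inv, map_inv, h]
    group

/-- Gates. -/
theorem gate {Y : Set S} (g : M.Group) : ∃ L : Finset (S →₀ ℝ), (∀ d ∈ L, IsRoot M d) ∧
    ∀ (X : Set S) (k : M.Group), (∀ d ∈ L, ac M k d ∈ VX X → d ∈ VX Y) →
      mr M X (k * g) = mr M X (k * (g * (mr M Y g)⁻¹)) * mr M Y g := by
  classical
  induction g using M.toCoxeterSystem.simple_induction_right with
  | one =>
    refine ⟨∅, by simp, fun X k _ => ?_⟩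
    simp only [mr_one, inv_one, mul_one]
  | mul_simple_right g s ih =>
    obtain ⟨L, hL, h⟩ := ih
    refine ⟨insert (ac M g (al s)) L, ?_, fun X k hk => ?_⟩
    · intro d hd
      rcases Finset.mem_insert.1 hd with rfl | hd
      · exact ⟨g, s, rfl⟩
      · exact hL d hd
    · have h1 := h X k fun d hd => hk d (Finset.mem_insert_of_mem hd)
      have h2 := hk _ (Finset.mem_insert_self _ _)
      rw [← ac_mul] at h2
      change mr M X (k * (g * M.simple s)) = mr M X (k * (g * M.simple s *
        (mr M Y (g * M.simple s))⁻¹)) * mr M Y (g * M.simple s)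
      set p := g * (mr M Y g)⁻¹ with hp
      have hg : g = p * mr M Y g := by rw [hp]; group
      by_cases he : ac M g (al s) ∈ VX Y
      · -- the panel is parallel to a wall of `Y`
        have he' := he
        rw [mem_iff] at he'
        obtain ⟨y, hy, h3⟩ := deodhar (mr_mn Y g) he'
        obtain ⟨h4, h5⟩ := mr_in hy h3
        have h6 : g * M.simple s * (mr M Y g)⁻¹ = p * M.simple y := by
          have h8 : M.simple s = (mr M Y g)⁻¹ * (M.simple y * mr M Y g) := by
            rw [← h5]
            group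
          rw [hp, h8]
          group
        have h7 : ac M (mr M X (k * g)) (al s) = ac M (mr M X (k * p)) (al y) := by
          rw [h1, ac_mul, h3]
        rw [h4, h6, ← mul_assoc, ← mul_assoc]
        by_cases hk' : ac M (k * g) (al s) ∈ VX X
        · rw [mem_iff] at hk'
          obtain ⟨x, hx, h8⟩ := deodhar (mr_mn X (k * g)) hk'
          rw [(mr_in hx h8).1, (mr_in hx (h7.symm.trans h8)).1, h1]
        · rw [mr_out hk', h1, mul_assoc, h5, ← mul_assoc, mr_out]
          rw [mem_iff] at hk' ⊢
          rwa [h7] at hk'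
      · have h6 : g * M.simple s * (mr M Y g * M.simple s)⁻¹ = p := by
          rw [hp]
          group
        rw [mr_out he, h6, ← mul_assoc, ← mul_assoc, mr_out fun h => he (h2 h), h1]

theorem compare {Y : Set S} {cY : M.Group → ArtinGroup M → ArtinGroup (res M Y)}
    (hY : IsCoc M Y cY) {o : M.Group} (ho : Mn M Y o) (n : ArtinGroup M) :
    ∃ L : Finset (S →₀ ℝ), (∀ d ∈ L, IsRoot M d) ∧ ∀ (X : Set S)
      (cX : M.Group → ArtinGroup M → ArtinGroup (res M X)), IsCoc M X cX → ∀ k : M.Group,
        (∀ d ∈ L, ac M k d ∈ VX X → d ∈ VX Y) → cX (k * o) n = cX k (toAll M Y (cY o n)) := by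
  classical
  have key : ∀ (n : ArtinGroup M) (g : M.Group), ∃ L : Finset (S →₀ ℝ), (∀ d ∈ L, IsRoot M d) ∧
      ∀ (X : Set S) (cX : M.Group → ArtinGroup M → ArtinGroup (res M X)), IsCoc M X cX →
        ∀ k : M.Group, (∀ d ∈ L, ac M k d ∈ VX X → d ∈ VX Y) →
          cX (k * g) n = cX (k * (g * (mr M Y g)⁻¹)) (toAll M Y (cY g n)) := by
    intro n
    induction n using art_induction with
    | of s =>
      intro g
      obtain ⟨L, hL, h⟩ := gate (M := M) (Y := Y) g
      refine ⟨insert (ac M g (al s)) L, ?_, fun X cX hX k hk => ?_⟩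
      · intro d hd
        rcases Finset.mem_insert.1 hd with rfl | hd
        · exact ⟨g, s, rfl⟩
        · exact hL d hd
      · have h1 := h X k fun d hd => hk d (Finset.mem_insert_of_mem hd)
        have h2 := hk _ (Finset.mem_insert_self _ _)
        rw [← ac_mul] at h2
        rw [hX.of, hY.of]
        by_cases he : ac M g (al s) ∈ VX Y
        · have he' := he
          rw [mem_iff] at he'
          obtain ⟨y, hy, h3⟩ := deodhar (mr_mn Y g) he'
          rw [lab_in ⟨y, hy⟩ h3, toAll_gn, hX.of]
          refine lab_congr fun x _ => ?_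
          rw [h1, ac_mul, h3]
        · rw [lab_out he, map_one, hX.one, lab_out fun h => he (h2 h)]
    | one => exact fun g => ⟨∅, by simp, fun X cX hX k _ => by rw [hX.one, hY.one, map_one, hX.one]⟩
    | mul a b iha ihb =>
      intro g
      obtain ⟨L, hL, h⟩ := iha g
      obtain ⟨L', hL', h'⟩ := ihb (g * pr M a)
      refine ⟨L ∪ L', fun d hd => ?_, fun X cX hX k hk => ?_⟩
      · rcases Finset.mem_union.1 hd with hd | hd
        · exact hL d hd
        · exact hL' d hd
      · rw [hX.mul, hY.mul, map_mul, hX.mul, h X cX hX k fun d hd => hk d (Finset.mem_union_left _ hd),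
          mul_assoc k, h' X cX hX k fun d hd => hk d (Finset.mem_union_right _ hd), part_mul hY]
        simp only [mul_assoc]
    | inv a ih =>
      intro g
      obtain ⟨L, hL, h⟩ := ih (g * (pr M a)⁻¹)
      refine ⟨L, hL, fun X cX hX k hk => ?_⟩
      have h2 := part_mul hY (g * (pr M a)⁻¹) a
      rw [inv_mul_cancel_right] at h2
      have h3 : k * (g * (pr M a)⁻¹ * (mr M Y (g * (pr M a)⁻¹))⁻¹) = k * (g * (mr M Y g)⁻¹) *
          (pr M (toAll M Y (cY (g * (pr M a)⁻¹) a)))⁻¹ := by
        rw [h2]
        group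
      rw [hX.inv, hY.inv, map_inv, hX.inv, mul_assoc k, h X cX hX k hk, h3]
  obtain ⟨L, hL, h⟩ := key n o
  refine ⟨L, hL, fun X cX hX k hk => ?_⟩
  rw [h X cX hX k hk, mr_of_mn ho, mul_inv_cancel, mul_one]

end Pool.Agent.AIR
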