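import Pool.Agent.AIR.Roots

/-!
# AIR: the cocycle of the retractions to a parabolic subgroup
-/

set_option autoImplicit false

namespace Pool.Agent.AIR.Cc

open Pool.Agent.Helper63.TD Pool.Agent.Helper54.LA Pool.Agent.Helper13.LT

section alt

variable {G : Type} [Group G]

theorem alt_succ_right (x y : G) (n : ℕ) :
    alt x y (n + 1) = alt x y n * (if Even n then x else y) := by
  induction n generalizing x y with
  | zero => simp [alt]
  | succ n ih =>
    rw [alt, ih, alt, mul_assoc]
    congr 1
    congr 1
    by_cases h : Even n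
    · rw [if_pos h, if_neg (by rw [Nat.even_add_one]; exact not_not.2 h)]
    · rw [if_neg h, if_pos (Nat.even_add_one.2 h)]

end alt

variable {S : Type} {M : CoxeterMatrix S}

/-- The letters of the word `s t s t ...`. -/
def ltr (s t : S) (n : ℕ) : S := if Even n then s else t

/-- The product of the first `n` letters. -/
noncomputable def wd (M : CoxeterMatrix S) (s t : S) (n : ℕ) : M.Group :=
  alt (M.simple s) (M.simple t) n

theorem ltr_succ (s t : S) (n : ℕ) : ltr s t (n + 1) = ltr t s n := by
  unfold ltr
  by_cases h : Even n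
  · rw [if_pos h, if_neg (by rw [Nat.even_add_one]; exact not_not.2 h)]
  · rw [if_neg h, if_pos (Nat.even_add_one.2 h)]

theorem wd_zero (s t : S) : wd M s t 0 = 1 := rfl

theorem wd_succ (s t : S) (n : ℕ) : wd M s t (n + 1) = M.simple s * wd M t s n := rfl

theorem wd_succ_right (s t : S) (n : ℕ) :
    wd M s t (n + 1) = wd M s t n * M.simple (ltr s t n) := by
  unfold wd
  rw [alt_succ_right]
  congr 1
  unfold ltr
  split_ifs <;> rfl

theorem bil_al (s t : S) : bil M s (al t) = - cl (M s t) := by
  unfold al
  rw [bil_single]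
  ring

/-- The roots of the rank two residues. -/
theorem ac_wd (s t : S) (n : ℕ) : ac M (wd M s t n) (al (ltr s t n)) =
    chb (cl (M s t)) (n + 1) • al s + chb (cl (M s t)) n • al t := by
  induction n generalizing s t with
  | zero =>
    rw [wd_zero, ac_one]
    simp [ltr]
  | succ n ih =>
    rw [wd_succ, ac_mul, ltr_succ, ih, map_add, map_smul, map_smul, ac_simple_self, ac_simple,
      bil_al, M.symmetric t s, chb_succ_succ]
    module

theorem chb_det (x : ℝ) (j i : ℕ) :
    chb x (j + 1) * chb x (j + i) - chb x j * chb x (j + i + 1) = chb x i := by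
  induction j with
  | zero => simp
  | succ j ih =>
    rw [show j + 1 + i = j + i + 1 by ring, show j + i + 1 + 1 = j + i + 2 by ring,
      show j + 1 + 1 = j + 2 by ring, chb_succ_succ, chb_succ_succ]
    linear_combination ih

/-- The wall of the `n`-th panel of the path from `g` is a wall of `X`. -/
def Bad (M : CoxeterMatrix S) (X : Set S) (g : M.Group) (s t : S) (n : ℕ) : Prop :=
  ac M (g * wd M s t n) (al (ltr s t n)) ∈ VX X

/-- The labels along a path. -/
noncomputable def pl (M : CoxeterMatrix S) (X : Set S) (g : M.Group) (s t : S) :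
    ℕ → ArtinGroup (res M X)
  | 0 => 1
  | n + 1 => pl M X g s t n * lab M X (g * wd M s t n) (ltr s t n)

section

variable {X : Set S}

theorem mr_mul_left {a : M.Group} (ha : a ∈ WX M X) (g : M.Group) : mr M X (a * g) = mr M X g := by
  have h := mr_unique (M := M) (X := X) (a := a * (g * (mr M X g)⁻¹)) (m := mr M X g)
    (mul_mem ha (mr_mem X g)) (mr_mn X g)
  rwa [mul_assoc, inv_mul_cancel_right] at h

theorem ac_mr (g : M.Group) (v : S →₀ ℝ) : ac M (mr M X g) v ∈ VX X ↔ ac M g v ∈ VX X := by
  rw [← ac_mem_VX (mr_mem X g), ← ac_mul, inv_mul_cancel_right]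

theorem mr_wall {g : M.Group} {s : S} (h : ac M g (al s) ∈ VX X) :
    mr M X (g * M.simple s) = mr M X g := by
  have h1 := mr_mul_left (refl_mem.2 h) g
  rwa [inv_mul_cancel_right] at h1

theorem mr_nonwall {g : M.Group} {s : S} (h : ac M g (al s) ∉ VX X) :
    mr M X (g * M.simple s) = mr M X g * M.simple s := by
  have h1 : Mn M X (mr M X g * M.simple s) := mn_mul (mr_mn X g) (fun h' => h ((ac_mr g _).1 h'))
  have h2 := mr_unique (mr_mem X g) h1
  rwa [← mul_assoc, inv_mul_cancel_right] at h2

theorem al_inj {x y : S} (h : (al x : S →₀ ℝ) = al y) : x = y := by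
  by_contra hne
  have h1 := DFunLike.congr_fun h x
  unfold al at h1
  rw [Finsupp.single_eq_same, Finsupp.single_eq_of_ne hne] at h1
  exact one_ne_zero h1

theorem lab_wall {g : M.Group} {s x : S} (hx : x ∈ X) (h : ac M (mr M X g) (al s) = al x) :
    lab M X g s = PresentedGroup.of (⟨x, hx⟩ : X) := by
  unfold lab
  have h1 : ∃ x : X, ac M (mr M X g) (al s) = al x.1 := ⟨⟨x, hx⟩, h⟩
  rw [dif_pos h1]
  congr 1
  exact Subtype.ext (al_inj (h1.choose_spec.symm.trans h))

theorem al_mem {x : S} (hx : x ∈ X) : (al x : S →₀ ℝ) ∈ VX X := by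
  rw [mem_VX]
  intro s hs
  unfold al
  exact Finsupp.single_eq_of_ne fun h => hs (h ▸ hx)

theorem lab_nonwall {g : M.Group} {s : S} (h : ac M g (al s) ∉ VX X) : lab M X g s = 1 := by
  unfold lab
  refine dif_neg ?_
  rintro ⟨x, hx⟩
  exact h ((ac_mr g _).1 (by rw [hx]; exact al_mem x.2))

theorem simple_inj {x y : S} (h : M.simple x = M.simple y) : x = y := by
  by_contra hne
  have h1 : ac M (M.simple x) (al x) = ac M (M.simple y) (al x) := by rw [h]
  rw [ac_simple_self, ac_simple] at h1
  have h2 := DFunLike.congr_fun h1 x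
  have h3 : (al y : S →₀ ℝ) x = 0 := Finsupp.single_eq_of_ne hne
  have h4 : (al x : S →₀ ℝ) x = 1 := Finsupp.single_eq_same
  simp only [Finsupp.neg_apply, Finsupp.sub_apply, Finsupp.smul_apply, h3, h4, smul_zero,
    sub_zero] at h2
  norm_num at h2

/-- The paths without walls of `X`. -/
theorem path_none {g : M.Group} {s t : S} {n : ℕ} (h : ∀ j < n, ¬ Bad M X g s t j) :
    pl M X g s t n = 1 ∧ mr M X (g * wd M s t n) = mr M X g * wd M s t n := by
  induction n with
  | zero => exact ⟨rfl, by rw [wd_zero, mul_one, mul_one]⟩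
  | succ n ih =>
    obtain ⟨h1, h2⟩ := ih fun j hj => h j (by omega)
    have h3 := h n (by omega)
    refine ⟨?_, ?_⟩
    · rw [pl, h1, one_mul, lab_nonwall h3]
    · rw [wd_succ_right, ← mul_assoc, mr_nonwall h3, h2, mul_assoc]

/-- The paths with one wall of `X`. -/
theorem path_one {g : M.Group} {s t : S} {n k : ℕ} (hk : k < n) (hb : Bad M X g s t k)
    (h : ∀ j < n, Bad M X g s t j → j = k) :
    ∃ x : X, pl M X g s t n = PresentedGroup.of x ∧
      ac M (mr M X g * wd M s t k) (al (ltr s t k)) = al x.1 := by
  obtain ⟨h1, h2⟩ := path_none (M := M) (X := X) (g := g) (s := s) (t := t) (n := k)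
    fun j hj hj' => by
      have := h j (by omega) hj'
      omega
  have h3 : ac M (mr M X (g * wd M s t k)) (al (ltr s t k)) ∈ VX X := (ac_mr _ _).2 hb
  obtain ⟨x, hx, h4⟩ := deodhar (mr_mn X _) h3
  have h5 := h4
  rw [h2] at h5
  refine ⟨⟨x, hx⟩, ?_, h5⟩
  have key : ∀ i, k + 1 + i ≤ n → pl M X g s t (k + 1 + i) = PresentedGroup.of (⟨x, hx⟩ : X) := by
    intro i
    induction i with
    | zero =>
      intro _
      rw [Nat.add_zero, pl, h1, one_mul]
      exact lab_wall hx h4
    | succ i ih =>
      intro hi
      have h6 : ¬ Bad M X g s t (k + 1 + i) := fun h' => by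
        have := h _ (by omega) h'
        omega
      rw [← Nat.add_assoc, pl, ih (by omega), lab_nonwall h6, mul_one]
  have := key (n - (k + 1)) (by omega)
  rwa [show k + 1 + (n - (k + 1)) = n by omega] at this

/-- The paths in the residues of `X`. -/
theorem path_all {g : M.Group} {s t x y : S} (hx : x ∈ X) (hy : y ∈ X)
    (h1 : ac M (mr M X g) (al s) = al x) (h2 : ac M (mr M X g) (al t) = al y) (n : ℕ) :
    pl M X g s t n = alt (PresentedGroup.of (⟨x, hx⟩ : X)) (PresentedGroup.of (⟨y, hy⟩ : X)) n ∧
      mr M X (g * wd M s t n) = mr M X g := by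
  induction n with
  | zero => exact ⟨rfl, by rw [wd_zero, mul_one]⟩
  | succ n ih =>
    obtain ⟨h3, h4⟩ := ih
    by_cases hn : Even n
    · have e : ltr s t n = s := if_pos hn
      refine ⟨?_, ?_⟩
      · rw [pl, h3, alt_succ_right, if_pos hn, e, lab_wall hx (by rw [h4]; exact h1)]
      · rw [wd_succ_right, ← mul_assoc, e, mr_wall, h4]
        rw [← ac_mr, h4, h1]
        exact al_mem hx
    · have e : ltr s t n = t := if_neg hn
      refine ⟨?_, ?_⟩
      · rw [pl, h3, alt_succ_right, if_neg hn, e, lab_wall hy (by rw [h4]; exact h2)]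
      · rw [wd_succ_right, ← mul_assoc, e, mr_wall, h4]
        rw [← ac_mr, h4, h2]
        exact al_mem hy

/-- The reflection of the `n`-th panel. -/
theorem refl_wd (s t : S) (n : ℕ) : wd M s t n * M.simple (ltr s t n) * (wd M s t n)⁻¹ =
    (M.simple s * M.simple t) ^ n * M.simple s := by
  have hs : ∀ s : S, M.simple s * M.simple s = 1 := fun s => M.toCoxeterSystem.simple_mul_simple_self s
  induction n generalizing s t with
  | zero => rw [wd_zero]; simp [ltr]
  | succ n ih =>
    have hinv : (M.simple s)⁻¹ = M.simple s := inv_eq_of_mul_eq_one_left (hs s)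
    have h1 : M.simple s * (M.simple t * M.simple s) ^ n = (M.simple s * M.simple t) ^ n * M.simple s := by
      have : SemiconjBy (M.simple s) (M.simple t * M.simple s) (M.simple s * M.simple t) := by
        change M.simple s * (M.simple t * M.simple s) = M.simple s * M.simple t * M.simple s
        rw [mul_assoc]
      exact this.pow_right n
    rw [wd_succ, ltr_succ, mul_inv_rev, hinv]
    calc M.simple s * wd M t s n * M.simple (ltr t s n) * ((wd M t s n)⁻¹ * M.simple s)
        = M.simple s * (wd M t s n * M.simple (ltr t s n) * (wd M t s n)⁻¹) * M.simple s := by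
          simp only [mul_assoc]
      _ = M.simple s * ((M.simple t * M.simple s) ^ n * M.simple t) * M.simple s := by rw [ih]
      _ = (M.simple s * (M.simple t * M.simple s) ^ n) * (M.simple t * M.simple s) := by
          simp only [mul_assoc]
      _ = (M.simple s * M.simple t) ^ n * (M.simple s * M.simple t) * M.simple s := by
          rw [h1]
          simp only [mul_assoc]
      _ = (M.simple s * M.simple t) ^ (n + 1) * M.simple s := by rw [pow_succ]

/-- The two half circuits of a residue pass the same walls. -/
theorem refl_opp {s t : S} {j : ℕ} (hj : j < M s t) :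
    wd M t s j * M.simple (ltr t s j) * (wd M t s j)⁻¹ =
      wd M s t (M s t - 1 - j) * M.simple (ltr s t (M s t - 1 - j)) *
        (wd M s t (M s t - 1 - j))⁻¹ := by
  rw [refl_wd, refl_wd]
  have hs : ∀ s : S, M.simple s * M.simple s = 1 := fun s => M.toCoxeterSystem.simple_mul_simple_self s
  have hinv : ∀ s : S, (M.simple s)⁻¹ = M.simple s := fun s => inv_eq_of_mul_eq_one_left (hs s)
  have hp : (M.simple s * M.simple t) ^ M s t = 1 := M.toCoxeterSystem.simple_mul_simple_pow s t
  have h1 : (M.simple t * M.simple s) = (M.simple s * M.simple t)⁻¹ := by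
    rw [mul_inv_rev, hinv, hinv]
  have h2 : (M.simple s * M.simple t) ^ (M s t - 1 - j) = (M.simple t * M.simple s) ^ (j + 1) := by
    rw [h1, inv_pow, eq_inv_iff_mul_eq_one, ← pow_add, show M s t - 1 - j + (j + 1) = M s t by omega,
      hp]
  rw [h2, pow_succ]
  simp only [mul_assoc]
  rw [hs, mul_one]

theorem bad_iff (g : M.Group) (s t : S) (n : ℕ) : Bad M X g s t n ↔
    g * (wd M s t n * M.simple (ltr s t n) * (wd M s t n)⁻¹) * g⁻¹ ∈ WX M X := by
  unfold Bad
  rw [← refl_mem, mul_inv_rev]
  simp only [mul_assoc]

theorem bad_opp (g : M.Group) {s t : S} {j : ℕ} (hj : j < M s t) :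
    Bad M X g t s j ↔ Bad M X g s t (M s t - 1 - j) := by
  rw [bad_iff, bad_iff, refl_opp hj]

/-- The braid relation. -/
theorem pl_braid (g : M.Group) (s t : S) (h0 : M s t ≠ 0) :
    pl M X g s t (M s t) = pl M X g t s (M s t) := by
  by_cases hst : s = t
  · subst hst
    rfl
  have h1 : M s t ≠ 1 := M.off_diagonal s t hst
  by_cases hA : ac M g (al s) ∈ VX X ∧ ac M g (al t) ∈ VX X
  · obtain ⟨x, hx, e1⟩ := deodhar (mr_mn X g) ((ac_mr g _).2 hA.1)
    obtain ⟨y, hy, e2⟩ := deodhar (mr_mn X g) ((ac_mr g _).2 hA.2)
    rw [(path_all hx hy e1 e2 _).1, (path_all hy hx e2 e1 _).1]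
    have e3 : M s t = M x y := by
      first
      | exact label_eq e1 e2
      | exact label_eq (h := 1) e1 e2
    have e4 := artin_braid (res M X) (⟨x, hx⟩ : X) (⟨y, hy⟩ : X) (by
      rw [res_apply]
      rw [← e3]
      exact h0)
    rw [res_apply] at e4
    rw [e3]
    exact e4
  · -- at most one wall
    have huniq : ∀ j k, j < k → k < M s t → Bad M X g s t j → Bad M X g s t k → False := by
      intro j k hjk hk hj' hk'
      apply hA
      obtain ⟨i, rfl⟩ : ∃ i, k = j + i := ⟨k - j, by omega⟩
      unfold Bad at hj' hk'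
      rw [ac_mul, ac_wd, map_add, map_smul, map_smul] at hj' hk'
      have hd := chb_det (cl (M s t)) j i
      have hi : 0 < chb (cl (M s t)) i := chb_pos h1 (by omega) (Or.inr (by omega))
      set c := chb (cl (M s t))
      set A := ac M g (al s)
      set B := ac M g (al t)
      constructor
      · have e1 := (VX X).sub_mem ((VX X).smul_mem (c (j + i)) hj') ((VX X).smul_mem (c j) hk')
        have e2 : c (j + i) • (c (j + 1) • A + c j • B) - c j • (c (j + i + 1) • A + c (j + i) • B) =
            c i • A := by
          rw [← hd]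
          module
        rw [e2] at e1
        exact ((VX X).smul_mem_iff hi.ne').1 e1
      · have e1 := (VX X).sub_mem ((VX X).smul_mem (c (j + 1)) hk')
          ((VX X).smul_mem (c (j + i + 1)) hj')
        have e2 : c (j + 1) • (c (j + i + 1) • A + c (j + i) • B) -
            c (j + i + 1) • (c (j + 1) • A + c j • B) = c i • B := by
          rw [← hd]
          module
        rw [e2] at e1
        exact ((VX X).smul_mem_iff hi.ne').1 e1
    by_cases hex : ∃ k < M s t, Bad M X g s t k
    · obtain ⟨k, hk, hb⟩ := hex
      have hu : ∀ j < M s t, Bad M X g s t j → j = k := by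
        intro j hj hj'
        rcases lt_trichotomy j k with h | h | h
        · exact (huniq j k h hk hj' hb).elim
        · exact h
        · exact (huniq k j h hj hb hj').elim
      have hb' : Bad M X g t s (M s t - 1 - k) := by
        rw [bad_opp g (by omega), show M s t - 1 - (M s t - 1 - k) = k by omega]
        exact hb
      have hu' : ∀ j < M s t, Bad M X g t s j → j = M s t - 1 - k := by
        intro j hj hj'
        rw [bad_opp g hj] at hj'
        have := hu _ (by omega) hj'
        omega
      obtain ⟨x, e1, e2⟩ := path_one hk hb hu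
      obtain ⟨x', e1', e2'⟩ := path_one (show M s t - 1 - k < M s t by omega) hb' hu'
      have e3 : ac M (mr M X g * wd M s t k) (al (ltr s t k)) = ac M 1 (al x.1) := by
        rw [e2, ac_one]
      have e3' : ac M (mr M X g * wd M t s (M s t - 1 - k)) (al (ltr t s (M s t - 1 - k))) =
          ac M 1 (al x'.1) := by
        rw [e2', ac_one]
      have e4 := refl_eq e3
      have e4' := refl_eq e3'
      have e5 : (mr M X g * wd M s t k) * M.simple (ltr s t k) * (mr M X g * wd M s t k)⁻¹ =
          mr M X g * (wd M s t k * M.simple (ltr s t k) * (wd M s t k)⁻¹) * (mr M X g)⁻¹ := by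
        rw [mul_inv_rev]
        simp only [mul_assoc]
      have e5' : (mr M X g * wd M t s (M s t - 1 - k)) * M.simple (ltr t s (M s t - 1 - k)) *
          (mr M X g * wd M t s (M s t - 1 - k))⁻¹ =
          mr M X g * (wd M t s (M s t - 1 - k) * M.simple (ltr t s (M s t - 1 - k)) *
            (wd M t s (M s t - 1 - k))⁻¹) * (mr M X g)⁻¹ := by
        rw [mul_inv_rev]
        simp only [mul_assoc]
      rw [e5] at e4
      rw [e5', refl_opp (by omega), show M s t - 1 - (M s t - 1 - k) = k by omega, e4] at e4'
      have e6 : x = x' := by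
        refine Subtype.ext (simple_inj (M := M) ?_)
        simpa using e4'
      rw [e1, e1', e6]
    · push Not at hex
      have hex' : ∀ j < M s t, ¬ Bad M X g t s j := fun j hj hj' => by
        rw [bad_opp g hj] at hj'
        exact hex _ (by omega) hj'
      rw [(path_none hex).1, (path_none hex').1]

/-- Right translation of functions. -/
def rt (W K : Type) [Group W] [Group K] : W →* MulAut (W → K) where
  toFun w :=
    { toFun := fun φ g => φ (g * w)
      invFun := fun φ g => φ (g * w⁻¹)
      left_inv := fun φ => by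
        funext g
        simp
      right_inv := fun φ => by
        funext g
        simp
      map_mul' := fun _ _ => rfl }
  map_one' := by
    ext φ g
    simp
  map_mul' a b := by
    ext φ g
    simp [mul_assoc]

theorem rt_apply {W K : Type} [Group W] [Group K] (w : W) (φ : W → K) (g : W) :
    rt W K w φ g = φ (g * w) := rfl

/-- The images of the generators. -/
noncomputable def eg (M : CoxeterMatrix S) (X : Set S) (s : S) :
    (M.Group → ArtinGroup (res M X)) ⋊[rt M.Group (ArtinGroup (res M X))] M.Group :=
  ⟨fun g => lab M X g s, M.simple s⟩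

theorem alt_eg (s t : S) (n : ℕ) : (alt (eg M X s) (eg M X t) n).right = wd M s t n ∧
    ∀ g, (alt (eg M X s) (eg M X t) n).left g = pl M X g s t n := by
  induction n with
  | zero => exact ⟨rfl, fun _ => rfl⟩
  | succ n ih =>
    have h1 : (if Even n then eg M X s else eg M X t) = eg M X (ltr s t n) := by
      unfold ltr
      split_ifs <;> rfl
    rw [alt_succ_right, h1]
    refine ⟨?_, fun g => ?_⟩
    · rw [SemidirectProduct.mul_right, ih.1, wd_succ_right]
      rfl
    · rw [SemidirectProduct.mul_left, Pi.mul_apply, ih.2, ih.1, rt_apply, pl]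
      rfl

/-- The homomorphism which contains the cocycle. -/
noncomputable def eHom (M : CoxeterMatrix S) (X : Set S) : ArtinGroup M →*
    (M.Group → ArtinGroup (res M X)) ⋊[rt M.Group (ArtinGroup (res M X))] M.Group :=
  artinLift M (eg M X) fun s t h0 => by
    refine SemidirectProduct.ext ?_ ?_
    · funext g
      rw [(alt_eg s t _).2, (alt_eg t s _).2]
      exact pl_braid g s t h0
    · rw [(alt_eg s t _).1, (alt_eg t s _).1]
      exact simple_alt M s t h0

theorem eHom_gn (s : S) : eHom M X (gn M s) = eg M X s := artinLift_of _ _ _ _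

theorem eHom_right (a : ArtinGroup M) : (eHom M X a).right = pr M a := by
  have : SemidirectProduct.rightHom.comp (eHom M X) = pr M := by
    refine PresentedGroup.ext fun s => ?_
    change (eHom M X (gn M s)).right = pr M (gn M s)
    rw [eHom_gn, pr_gn]
    rfl
  exact congrArg (fun f : ArtinGroup M →* M.Group => f a) this

end

end Pool.Agent.AIR.Cc

namespace Pool.Agent.AIR

/-- The cocycle exists. -/
theorem exists_coc {S : Type} {M : CoxeterMatrix S} (X : Set S) : ∃ c, IsCoc M X c := by
  refine ⟨fun g a => (Cc.eHom M X a).left g, ?_, ?_⟩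
  · intro g a b
    rw [map_mul, SemidirectProduct.mul_left, Pi.mul_apply, Cc.rt_apply, Cc.eHom_right]
  · intro g s
    rw [Cc.eHom_gn]
    rfl

end Pool.Agent.AIR
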