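import Pool.Agent.AIR.Roots

/-!
# AIR: intersections and normalizers of parabolic subgroups
-/

set_option autoImplicit false

namespace Pool.Agent.AIR

open Pool.Agent.Helper63.TD Pool.Agent.Helper54.LA Pool.Agent.Helper13.LT Pool.Agent.Helper3.FJ
  Pool.Agent.Helper29.BA Pool.Agent.Helper29.PA

variable {S : Type} {M : CoxeterMatrix S}

private theorem VX_mono {X Y : Set S} (h : Y ⊆ X) : VX Y ≤ VX X := Finsupp.supported_mono h

private theorem al_inj {x y : S} (h : al x = al y) : x = y := by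
  classical
  by_contra hne
  have h1 : al x x = al y x := by rw [h]
  unfold al at h1
  rw [Finsupp.single_eq_same, Finsupp.single_apply, if_neg (Ne.symm hne)] at h1
  exact one_ne_zero h1

private theorem ac_inj {g : M.Group} {v w : S →₀ ℝ} (h : ac M g v = ac M g w) : v = w := by
  rw [← ac_inv_ac g v, h, ac_inv_ac]

/-- the image of a vector as a linear combination -/
private theorem ac_eq_sum (g : M.Group) (v : S →₀ ℝ) (s : S) : ac M g v s = v.sum fun x c => c * ac M g (al x) s := by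
  have h1 : ac M g v = v.sum fun x c => c • ac M g (al x) := by
    conv_lhs => rw [← Finsupp.sum_single v]
    rw [Finsupp.sum, map_sum]
    refine Finset.sum_congr rfl fun x _ => ?_
    show _ = v x • ac M g (al x)
    unfold al
    rw [← map_smul, Finsupp.smul_single, smul_eq_mul, mul_one]
  rw [h1, Finsupp.sum, Finsupp.finsetSum_apply]
  rfl

/-- the image of a span -/
private theorem ac_mem_of {g : M.Group} {Y Z : Set S} (h : ∀ y ∈ Y, ac M g (al y) ∈ VX Z) {v : S →₀ ℝ} (hv : v ∈ VX Y) :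
    ac M g v ∈ VX Z := by
  rw [mem_VX] at hv ⊢
  intro s hs
  rw [ac_eq_sum]
  refine Finset.sum_eq_zero fun x hx => ?_
  have hx' : x ∈ Y := by
    by_contra h1
    exact (Finsupp.mem_support_iff.1 hx) (hv x h1)
  show v x * ac M g (al x) s = 0
  rw [mem_VX.1 (h x hx') s hs, mul_zero]

/-- a positive combination of positive vectors in a coordinate subspace -/
private theorem mem_of_nonneg {g : M.Group} {X Z : Set S} (hg : ∀ x ∈ X, 0 ≤ ac M g (al x)) {e : S →₀ ℝ} (he : 0 ≤ e)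
    (heX : e ∈ VX X) (h : ac M g e ∈ VX Z) : e ∈ VX {x | x ∈ X ∧ ac M g (al x) ∈ VX Z} := by
  rw [mem_VX]
  intro x hx
  by_contra hne
  apply hx
  have hxX : x ∈ X := by
    by_contra h1
    exact hne (mem_VX.1 heX x h1)
  refine ⟨hxX, mem_VX.2 fun s hs => ?_⟩
  have h1 : (e.sum fun x c => c * ac M g (al x) s) = 0 := by
    rw [← ac_eq_sum]
    exact mem_VX.1 h s hs
  have h2 : ∀ y ∈ e.support, 0 ≤ e y * ac M g (al y) s := by
    intro y hy
    have hyX : y ∈ X := by
      by_contra h1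
      exact (Finsupp.mem_support_iff.1 hy) (mem_VX.1 heX y h1)
    exact mul_nonneg (he y) (hg y hyX s)
  have h3 := (Finset.sum_eq_zero_iff_of_nonneg h2).1 h1 x (Finsupp.mem_support_iff.2 hne)
  exact (mul_eq_zero.1 h3).resolve_left hne

/-- intersections of parabolic subsystems are parabolic -/
theorem inter (X Z : Set S) (g : M.Group) : ∃ a ∈ WX M X, ∃ Y ⊆ X,
    ∀ d, IsRoot M d → ((d ∈ VX X ∧ ac M g d ∈ VX Z) ↔ ac M a d ∈ VX Y) := by
  have hm := mr_mn (M := M) X g⁻¹
  have hb := mr_mem (M := M) X g⁻¹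
  set m := mr M X g⁻¹ with hmdef
  have ha : (g⁻¹ * m⁻¹)⁻¹ ∈ WX M X := (WX M X).inv_mem hb
  have hg : ∀ v, ac M g v = ac M m⁻¹ (ac M (g⁻¹ * m⁻¹)⁻¹ v) := by
    intro v
    rw [← ac_mul]
    congr 2
    group
  refine ⟨(g⁻¹ * m⁻¹)⁻¹, ha, {x | x ∈ X ∧ ac M m⁻¹ (al x) ∈ VX Z}, fun x hx => hx.1, fun d hd => ?_⟩
  constructor
  · rintro ⟨h1, h2⟩
    rw [hg] at h2
    have h3 : ac M (g⁻¹ * m⁻¹)⁻¹ d ∈ VX X := (ac_mem_VX ha d).2 h1
    rcases root_sign (hd.ac (g⁻¹ * m⁻¹)⁻¹) with h4 | h4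
    · exact mem_of_nonneg hm h4 h3 h2
    · have h5 : -ac M (g⁻¹ * m⁻¹)⁻¹ d ∈ VX {x | x ∈ X ∧ ac M m⁻¹ (al x) ∈ VX Z} := by
        refine mem_of_nonneg hm (neg_nonneg.2 h4) ((VX X).neg_mem h3) ?_
        rw [map_neg]
        exact (VX Z).neg_mem h2
      have h6 := (VX _).neg_mem h5
      rwa [neg_neg] at h6
  · intro h1
    refine ⟨(ac_mem_VX ha d).1 (VX_mono (fun x hx => hx.1) h1), ?_⟩
    rw [hg]
    exact ac_mem_of (fun y hy => hy.2) h1

/-- normalizers -/
theorem normalizer [Finite S] {Y : Set S} {g : M.Group} (h : ∀ v ∈ VX Y, ac M g v ∈ VX Y) :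
    ∃ k : ℕ, 1 ≤ k ∧ ∃ a ∈ WX M Y, ∃ z, g ^ k = a * z ∧ ∀ y ∈ Y, ac M z (al y) = al y := by
  classical
  have hm := mr_mn (M := M) Y g
  have hb := mr_mem (M := M) Y g
  set u := mr M Y g with hu
  -- the permutation of the simple roots
  have h1 : ∀ y : Y, ∃ z : Y, ac M u (al y.1) = al z.1 := by
    intro y
    have h2 : ac M u (al y.1) ∈ VX Y := by
      rw [← ac_mem_VX hb, ← ac_mul, inv_mul_cancel_right]
      exact h _ (al_mem_VX.2 y.2)
    obtain ⟨z, hz, hz'⟩ := deodhar hm h2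
    exact ⟨⟨z, hz⟩, hz'⟩
  choose σ hσ using h1
  have hinj : Function.Injective σ := by
    intro y y' hy
    have h2 : ac M u (al y.1) = ac M u (al y'.1) := by rw [hσ, hσ, hy]
    exact Subtype.ext (al_inj (ac_inj h2))
  have hbij : Function.Bijective σ := ⟨hinj, Finite.surjective_of_injective hinj⟩
  let e : Equiv.Perm Y := Equiv.ofBijective σ hbij
  have he : ∀ (n : ℕ) (y : Y), ac M (u ^ n) (al y.1) = al ((e ^ n) y).1 := by
    intro n
    induction n with
    | zero =>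
      intro y
      rw [pow_zero, ac_one]
      rfl
    | succ n ih =>
      intro y
      rw [pow_succ, ac_mul, hσ, ih, pow_succ]
      rfl
  -- conjugation by `u` preserves the parabolic subgroup
  have hc : ∀ w ∈ WX M Y, u * w * u⁻¹ ∈ WX M Y := by
    intro w hw
    have h2 : WX M Y ≤ (WX M Y).comap (MulAut.conj u).toMonoidHom := by
      refine (Subgroup.closure_le _).2 ?_
      rintro _ ⟨y, hy, rfl⟩
      show u * M.simple y * u⁻¹ ∈ WX M Y
      have h3 : ac M u (al y) = ac M 1 (al (σ ⟨y, hy⟩).1) := by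
        rw [ac_one]
        exact hσ ⟨y, hy⟩
      rw [refl_eq h3, one_mul, inv_one, mul_one]
      exact Subgroup.subset_closure ⟨_, (σ ⟨y, hy⟩).2, rfl⟩
    exact h2 hw
  have hp : ∀ n : ℕ, g ^ n * (u ^ n)⁻¹ ∈ WX M Y := by
    intro n
    induction n with
    | zero =>
      rw [pow_zero, pow_zero, inv_one, mul_one]
      exact one_mem _
    | succ n ih =>
      have h2 := (WX M Y).mul_mem hb (hc _ ih)
      have h3 : g ^ (n + 1) * (u ^ (n + 1))⁻¹ = g * u⁻¹ * (u * (g ^ n * (u ^ n)⁻¹) * u⁻¹) := by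
        rw [pow_succ' g, pow_succ' u]
        group
      rw [h3]
      exact h2
  refine ⟨orderOf e, orderOf_pos e, g ^ orderOf e * (u ^ orderOf e)⁻¹, hp _, u ^ orderOf e, ?_, fun y hy => ?_⟩
  · rw [inv_mul_cancel_right]
  · have h2 := he (orderOf e) ⟨y, hy⟩
    rw [pow_orderOf_eq_one] at h2
    exact h2

end Pool.Agent.AIR
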