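import Pool.Agent.AIR.Integral
import Pool.Agent.AIR.Roots2

/-!
# The roots which stay infinitely often in a parabolic subsystem
-/

set_option autoImplicit false

namespace Pool.Agent.AIR

open Pool.Agent.Helper63.TD Pool.Agent.Helper54.LA Pool.Agent.Helper13.LT Pool.Agent.Helper3.FJ

variable {S : Type} {M : CoxeterMatrix S}

/-- The data of the descent. -/
def CoreP (M : CoxeterMatrix S) (X : Set S) (w : M.Group) (Y : Set S) (o : M.Group)
    (F : Finset ℤ) : Prop :=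
  Y ⊆ X ∧ 0 ∈ F ∧ ∀ d, IsRoot M d → (ac M o d ∈ VX Y ↔ ∀ i ∈ F, ac M (w ^ i) d ∈ VX X)

theorem coreP_start (X : Set S) (w : M.Group) : CoreP M X w X 1 {0} := by
  refine ⟨subset_rfl, Finset.mem_singleton_self _, fun d _ => ?_⟩
  simp [ac_one]

theorem coreP_step {X : Set S} {w : M.Group} {Y : Set S} {o : M.Group} {F : Finset ℤ}
    (h : CoreP M X w Y o F) (i : ℤ) : ∃ Y' ⊆ Y, ∃ a ∈ WX M Y, CoreP M X w Y' (a * o) (insert i F) := by
  obtain ⟨a, ha, Y', hY', h1⟩ := inter (M := M) Y X (w ^ i * o⁻¹)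
  refine ⟨Y', hY', a, ha, hY'.trans h.1, Finset.mem_insert_of_mem h.2.1, fun d hd => ?_⟩
  have h2 := h1 (ac M o d) (hd.ac o)
  rw [← ac_mul, ← ac_mul, inv_mul_cancel_right] at h2
  rw [← h2, h.2.2 d hd]
  simp only [Finset.forall_mem_insert]
  exact and_comm

theorem exists_coreP [Finite S] (X : Set S) (w : M.Group) : ∃ (Y : Set S) (o : M.Group), Y ⊆ X ∧
    ∀ d, IsRoot M d → (ac M o d ∈ VX Y ↔ ∀ i : ℤ, ac M (w ^ i) d ∈ VX X) := by
  classical
  have hex : ∃ n : ℕ, ∃ (Y : Set S) (o : M.Group) (F : Finset ℤ), CoreP M X w Y o F ∧ Y.ncard = n :=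
    ⟨_, X, 1, {0}, coreP_start X w, rfl⟩
  obtain ⟨Y, o, F, hP, hn⟩ := Nat.find_spec hex
  refine ⟨Y, o, hP.1, fun d hd => ⟨fun h i => ?_, fun h => (hP.2.2 d hd).2 fun i _ => h i⟩⟩
  obtain ⟨Y', hY', a, ha, hP'⟩ := coreP_step hP i
  have hle : Y.ncard ≤ Y'.ncard := by
    rw [hn]
    exact Nat.find_min' hex ⟨Y', a * o, _, hP', rfl⟩
  have hYY : Y' = Y := Set.eq_of_subset_of_ncard_le hY' hle (Set.toFinite _)
  subst hYY
  have h1 : ac M (a * o) d ∈ VX Y' := by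
    rw [ac_mul]
    exact (ac_mem_VX ha _).2 h
  exact (hP'.2.2 d hd).1 h1 i (Finset.mem_insert_self _ _)

theorem VX_of_al {Y : Set S} {g : M.Group} (h : ∀ y ∈ Y, ac M g (al y) ∈ VX Y) :
    ∀ v ∈ VX Y, ac M g v ∈ VX Y := by
  intro v hv
  have hs : VX Y = Submodule.span ℝ ((fun s : S => (al s : S →₀ ℝ)) '' Y) :=
    Finsupp.supported_eq_span_single ℝ Y
  rw [hs] at hv
  induction hv using Submodule.span_induction with
  | mem x hx =>
    obtain ⟨y, hy, rfl⟩ := hx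
    exact h y hy
  | zero =>
    rw [map_zero]
    exact Submodule.zero_mem _
  | add x y _ _ hx hy =>
    rw [map_add]
    exact Submodule.add_mem _ hx hy
  | smul r x _ hx =>
    rw [map_smul]
    exact Submodule.smul_mem _ r hx

/-- The core of the element `w` for the parabolic subsystem of type `X`. -/
theorem exists_core [Finite S] (X : Set S) (w : M.Group) :
    ∃ (k : ℕ) (Y : Set S) (o : M.Group), 1 ≤ k ∧ (X ≠ Set.univ → Y ≠ Set.univ) ∧ Mn M Y o ∧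
      (∃ a ∈ WX M Y, ∃ z, o * w ^ k * o⁻¹ = a * z ∧ ∀ y ∈ Y, ac M z (al y) = al y) ∧
      ∀ d, IsRoot M d → ac M o d ∉ VX Y → {i : ℤ | ac M (w ^ (k * i)) d ∈ VX X}.Finite := by
  obtain ⟨l, hl, hsml⟩ := sml_cox (M := M) w
  set w' : M.Group := w ^ l with hw'
  have hpow : ∀ i : ℤ, w' ^ i = w ^ ((l : ℤ) * i) := by
    intro i
    rw [hw', ← zpow_natCast, ← zpow_mul]
  have hinf : ∀ d, IsRoot M d → {i : ℤ | ac M (w' ^ i) d ∈ VX X}.Infinite →
      ∀ i : ℤ, ac M (w' ^ i) d ∈ VX X := by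
    intro d hd hI i
    rw [mem_VX]
    intro s hs
    rw [hpow]
    refine hsml d hd s (hI.mono fun j hj => ?_) i
    have hj' : ac M (w' ^ j) d ∈ VX X := hj
    rw [mem_VX] at hj'
    have := hj' s hs
    rw [hpow] at this
    exact this
  obtain ⟨Y, o₁, hYX, ho₁⟩ := exists_coreP (M := M) X w'
  set o : M.Group := mr M Y o₁ with ho
  have hoY : ∀ d, IsRoot M d → (ac M o d ∈ VX Y ↔ ∀ i : ℤ, ac M (w' ^ i) d ∈ VX X) := by
    intro d hd
    rw [← ho₁ d hd, ← ac_mem_VX (mr_mem Y o₁), ← ac_mul, inv_mul_cancel_right]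
  have hg : ∀ v ∈ VX Y, ac M (o * w' * o⁻¹) v ∈ VX Y := by
    refine VX_of_al fun y hy => ?_
    have hd : IsRoot M (ac M o⁻¹ (al y)) := ⟨o⁻¹, y, rfl⟩
    have h1 : ac M o (ac M o⁻¹ (al y)) ∈ VX Y := by
      rw [← ac_mul, mul_inv_cancel, ac_one, mem_VX]
      intro s hs
      exact Finsupp.single_eq_of_ne (fun e => hs (e ▸ hy))
    have h2 := (hoY _ hd).1 h1
    rw [ac_mul, ac_mul]
    refine (hoY _ (hd.ac w')).2 fun i => ?_
    rw [← ac_mul, ← zpow_add_one]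
    exact h2 (i + 1)
  obtain ⟨k, hk, a, ha, z, hz, hfix⟩ := normalizer hg
  refine ⟨l * k, Y, o, Nat.mul_pos hl hk, fun hX hY => hX ?_, mr_mn Y o₁, ⟨a, ha, z, ?_, hfix⟩, ?_⟩
  · rw [Set.eq_univ_iff_forall] at hY ⊢
    exact fun s => hYX (hY s)
  · rw [← hz, conj_pow, hw', ← pow_mul]
  · intro d hd hdY
    have hfin : {i : ℤ | ac M (w' ^ i) d ∈ VX X}.Finite := by
      by_contra hI
      exact hdY ((hoY d hd).2 (hinf d hd hI))
    have hk0 : (k : ℤ) ≠ 0 := by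
      have : (1 : ℤ) ≤ k := by exact_mod_cast hk
      omega
    refine (hfin.preimage (f := fun i : ℤ => (k : ℤ) * i)
      (fun x _ y _ h => mul_left_cancel₀ hk0 h)).subset fun i hi => ?_
    have hi' : ac M (w ^ (((l * k : ℕ) : ℤ) * i)) d ∈ VX X := hi
    change ac M (w' ^ ((k : ℤ) * i)) d ∈ VX X
    rw [hpow, ← mul_assoc, ← Nat.cast_mul]
    exact hi'

end Pool.Agent.AIR
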