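import Pool.Agent.Helper63.TD.Geo
import Pool.Agent.Helper54.LA.Lim
import Pool.Agent.Helper3.FJ.Cpx

/-!
# Artin groups and their parabolic subgroups without infinite labels: definitions
-/

set_option autoImplicit false

namespace Pool.Agent.AIR

open Pool.Agent.Helper63.TD Pool.Agent.Helper54.LA Pool.Agent.Helper13.LT Pool.Agent.Helper3.FJ

section cox

variable {S : Type} (M : CoxeterMatrix S)

/-- The simple root. -/
noncomputable def al (s : S) : S →₀ ℝ := Finsupp.single s 1

/-- The action on the space of the geometric representation. -/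
noncomputable def ac (g : M.Group) : (S →₀ ℝ) →ₗ[ℝ] (S →₀ ℝ) := act M.toCoxeterSystem g

/-- Roots. -/
def IsRoot (d : S →₀ ℝ) : Prop := ∃ (g : M.Group) (s : S), d = ac M g (al s)

/-- The span of the simple roots of `X`. -/
def VX (X : Set S) : Submodule ℝ (S →₀ ℝ) := Finsupp.supported ℝ ℝ X

/-- Standard parabolic subgroups. -/
def WX (X : Set S) : Subgroup M.Group := Subgroup.closure (M.simple '' X)

/-- `m` is the minimal element of `WX X * m`. -/
def Mn (X : Set S) (m : M.Group) : Prop := ∀ x ∈ X, 0 ≤ ac M m⁻¹ (al x)

open Classical in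
/-- The minimal element of `WX X * g`. -/
noncomputable def mr (X : Set S) (g : M.Group) : M.Group :=
  if h : ∃ m, Mn M X m ∧ g * m⁻¹ ∈ WX M X then h.choose else 1

open Classical in
/-- The label of the panel `g`, `g * s` in the residue of type `X`. -/
noncomputable def lab (X : Set S) (g : M.Group) (s : S) : ArtinGroup (res M X) :=
  if h : ∃ x : X, ac M (mr M X g) (al s) = al x.1 then PresentedGroup.of h.choose else 1

/-- The generators. -/
def gn (s : S) : ArtinGroup M := PresentedGroup.of s

theorem simple_alt (s t : S) (h : M s t ≠ 0) :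
    alt (M.simple s) (M.simple t) (M s t) = alt (M.simple t) (M.simple s) (M s t) := by
  have key : ∀ (n : ℕ) (s t : S), alt (M.simple s) (M.simple t) n =
      M.toCoxeterSystem.wordProd
        (if Even n then CoxeterSystem.alternatingWord s t n else CoxeterSystem.alternatingWord t s n) := by
    intro n
    induction n with
    | zero => intro s t; simp [alt, CoxeterSystem.alternatingWord]
    | succ n ih =>
      intro s t
      rw [alt, ih]
      by_cases hn : Even n
      · rw [if_pos hn, if_neg (Nat.not_even_iff_odd.2 hn.add_one), CoxeterSystem.alternatingWord_succ',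
          if_pos hn, CoxeterSystem.wordProd_cons]
        rfl
      · have hn' : Even (n + 1) := (Nat.not_even_iff_odd.1 hn).add_one
        rw [if_neg hn, if_pos hn', CoxeterSystem.alternatingWord_succ', if_neg hn,
          CoxeterSystem.wordProd_cons]
        rfl
  rw [key, key]
  have e := M.toCoxeterSystem.wordProd_braidWord_eq s t
  rw [CoxeterSystem.braidWord, CoxeterSystem.braidWord, M.symmetric t s] at e
  split_ifs
  · exact e
  · exact e.symm

/-- The homomorphism to the Coxeter group. -/
noncomputable def pr : ArtinGroup M →* M.Group := artinLift M M.simple (simple_alt M)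

@[simp] theorem pr_gn (s : S) : pr M (gn M s) = M.simple s := artinLift_of M _ _ s

/-- The cocycle of the retractions to the parabolic subgroup of type `X`. -/
structure IsCoc (X : Set S) (c : M.Group → ArtinGroup M → ArtinGroup (res M X)) : Prop where
  mul : ∀ g a b, c g (a * b) = c g a * c (g * pr M a) b
  of : ∀ g s, c g (gn M s) = lab M X g s

end cox

section push

variable {G : Type} [Group G]

/-- `G` is the pushout of the subgroups `A` and `B` over their intersection. -/
structure IsPush (A B : Subgroup G) : Prop where
  gen : A ⊔ B = ⊤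
  lift : ∀ (H : Type) [Group H] (f : A →* H) (f' : B →* H),
    (∀ x (h : x ∈ A) (h' : x ∈ B), f ⟨x, h⟩ = f' ⟨x, h'⟩) →
      ∃ F : G →* H, (∀ x : A, F x = f x) ∧ ∀ x : B, F x = f' x

/-- The graph of the cosets of `A` and `B`. -/
def cosG (A B : Subgroup G) : Cpx ((G ⧸ A) ⊕ (G ⧸ B)) where
  adj u v := ∃ g : G, (u = Sum.inl (g : G ⧸ A) ∧ v = Sum.inr (g : G ⧸ B)) ∨
    (v = Sum.inl (g : G ⧸ A) ∧ u = Sum.inr (g : G ⧸ B))
  tri _ _ _ := False
  adj_symm := by
    rintro u v ⟨g, h⟩
    exact ⟨g, h.symm⟩
  adj_irrefl := by
    rintro u ⟨g, ⟨h, h'⟩ | ⟨h, h'⟩⟩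
    · rw [h] at h'
      cases h'
    · rw [h] at h'
      cases h'
  tri_rot _ _ _ h := h
  tri_flip _ _ _ h := h
  tri_adj _ _ _ h := h.elim

end push

section wr

/-- The shift of functions on the integers. -/
def shf (K : Type) [Group K] : Multiplicative ℤ →* MulAut (ℤ → K) where
  toFun n :=
    { toFun := fun φ i => φ (i + n.toAdd)
      invFun := fun φ i => φ (i - n.toAdd)
      left_inv := fun φ => by
        funext i
        simp
      right_inv := fun φ => by
        funext i
        simp
      map_mul' := fun _ _ => rfl }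
  map_one' := by
    ext φ i
    simp
  map_mul' a b := by
    ext φ i
    change φ (i + (a * b).toAdd) = φ (i + a.toAdd + b.toAdd)
    rw [toAdd_mul, add_assoc]

/-- The unrestricted wreath product with the integers. -/
abbrev WZ (K : Type) [Group K] : Type := (ℤ → K) ⋊[shf K] Multiplicative ℤ

theorem shf_apply {K : Type} [Group K] (n : Multiplicative ℤ) (φ : ℤ → K) (i : ℤ) :
    shf K n φ i = φ (i + n.toAdd) := rfl

/-- The subgroup of the finitely supported functions with all shifts. -/
def fsup (K : Type) [Group K] : Subgroup (WZ K) where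
  carrier := {x | {i | x.left i ≠ 1}.Finite}
  one_mem' := by simp
  mul_mem' := by
    intro a b ha hb
    have hb' : ((fun i : ℤ => i + a.right.toAdd) ⁻¹' {i | b.left i ≠ 1}).Finite :=
      Set.Finite.preimage (fun x _ y _ h => add_right_cancel h) hb
    refine (Set.Finite.union ha hb').subset fun i hi => ?_
    by_contra hc
    simp only [Set.mem_union, Set.mem_setOf_eq, Set.mem_preimage, not_or, not_not] at hc
    apply hi
    rw [SemidirectProduct.mul_left, Pi.mul_apply, hc.1, one_mul, shf_apply, hc.2]
  inv_mem' := by
    intro a ha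
    have ha' : ((fun i : ℤ => i + (a.right⁻¹).toAdd) ⁻¹' {i | a.left i ≠ 1}).Finite :=
      Set.Finite.preimage (fun x _ y _ h => add_right_cancel h) ha
    refine ha'.subset fun i hi => ?_
    by_contra hc
    simp only [Set.mem_setOf_eq, Set.mem_preimage, not_not] at hc
    apply hi
    rw [SemidirectProduct.inv_left, shf_apply, Pi.inv_apply, hc, inv_one]

end wr

section tree

variable {U : Type} (T : SimpleGraph U)

/-- Each walk from `x` to `y` passes through `z`. -/
def Btw (x z y : U) : Prop := ∀ p : T.Walk x y, z ∈ p.support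

end tree

end Pool.Agent.AIR
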