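import Pool.Agent.AIR.Defs
import Pool.Agent.T59.LocFin

/-!
# Induced homomorphisms
-/

set_option autoImplicit false

namespace Pool.Agent.AIR

open Pool.Agent.Helper29.BA Pool.Agent.Helper29.PA Pool.Agent.T59

theorem induce {C : ∀ (G : Type) [Group G], Prop} (hC : ClosedClass C) {H : Type} [Group H]
    (N : Subgroup H) [N.FiniteIndex] {Q : Type} [Group Q] (hQ : C Q) (f : N →* Q)
    (P : Subgroup H) (hf : ∀ x (hx : x ∈ N), x ∈ P → f ⟨x, hx⟩ = 1 → x = 1) :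
    ∃ (Q' : Type) (_ : Group Q') (f' : H →* Q'), C Q' ∧ ∀ x ∈ P, f' x = 1 → x = 1 := by
  obtain ⟨s, hs, hs1⟩ : ∃ s : H ⧸ N → H, (∀ a, (s a : H ⧸ N) = a) ∧ s ((1 : H) : H ⧸ N) = 1 := by
    refine ⟨fun a => a.out * (((1 : H) : H ⧸ N).out)⁻¹, fun a => ?_, mul_inv_cancel _⟩
    have h1 : (((1 : H) : H ⧸ N).out)⁻¹ ∈ N := by
      have := QuotientGroup.out_eq' ((1 : H) : H ⧸ N)
      rw [QuotientGroup.eq] at this
      rw [mul_one] at this
      exact this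
    rw [QuotientGroup.mk_mul_of_mem _ h1]
    exact QuotientGroup.out_eq' a
  have hmem : ∀ (x : H) (a : H ⧸ N), (s a)⁻¹ * x * s (x⁻¹ • a) ∈ N := fun x a => by
    rw [mul_assoc, ← QuotientGroup.eq, hs]
    have : ((x * s (x⁻¹ • a) : H) : H ⧸ N) = x • ((s (x⁻¹ • a) : H) : H ⧸ N) := rfl
    rw [this, hs, smul_inv_smul]
  let f' : H →* UW Q (H ⧸ N) := MonoidHom.mk'
    (fun x => ⟨fun a => f ⟨_, hmem x a⟩, MulAction.toPermHom H (H ⧸ N) x⟩) (fun x y => by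
      refine SemidirectProduct.ext ?_ (map_mul _ _ _)
      funext a
      rw [SemidirectProduct.mul_left, Pi.mul_apply]
      change f _ = f _ * f _
      rw [← map_mul]
      congr 1
      apply Subtype.ext
      change (s a)⁻¹ * (x * y) * s ((x * y)⁻¹ • a) =
        (s a)⁻¹ * x * s (x⁻¹ • a) * ((s (x⁻¹ • a))⁻¹ * y * s (y⁻¹ • (x⁻¹ • a)))
      rw [mul_inv_rev, mul_smul]
      group)
  refine ⟨UW Q (H ⧸ N), inferInstance, f', mem_UW hC Q (H ⧸ N) hQ, fun x hx h1 => ?_⟩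
  have hl : f ⟨_, hmem x ((1 : H) : H ⧸ N)⟩ = 1 := congrFun (congrArg SemidirectProduct.left h1) _
  have hr : MulAction.toPermHom H (H ⧸ N) x = 1 := congrArg SemidirectProduct.right h1
  have hr' : x⁻¹ • ((1 : H) : H ⧸ N) = ((1 : H) : H ⧸ N) := by
    have h2 := congrFun (congrArg DFunLike.coe hr) ((1 : H) : H ⧸ N)
    have h3 : x • ((1 : H) : H ⧸ N) = ((1 : H) : H ⧸ N) := h2
    rw [inv_smul_eq_iff, h3]
  have he : (s ((1 : H) : H ⧸ N))⁻¹ * x * s (x⁻¹ • ((1 : H) : H ⧸ N)) = x := by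
    rw [hr', hs1, inv_one, one_mul, mul_one]
  have hx' : x ∈ N := by
    have := hmem x ((1 : H) : H ⧸ N)
    rwa [he] at this
  refine hf x hx' hx ?_
  rw [← hl]
  congr 1
  exact Subtype.ext he.symm

end Pool.Agent.AIR
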