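import Pool.Agent.AIR.Defs
import Pool.Agent.Helper54.LA.Cls
import Pool.Agent.Helper9.LR.Sml2

/-!
# The integral structure of the geometric representation

The coefficients of the roots are in a ring which is a finite free module over the integers. So a
Coxeter group of finite rank is a group of integral matrices, and the zeros of the coefficients of
the roots `w ^ j d` are described by the theorem of Skolem, Mahler and Lech.
-/

set_option autoImplicit false

namespace Pool.Agent.AIR

open Pool.Agent.Helper63.TD Pool.Agent.Helper54.LA Pool.Agent.Helper29.BA Pool.Agent.Helper9.LR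

open scoped Matrix MatrixGroups

section

variable {S : Type} (M : CoxeterMatrix S)

/-- The ring of the coefficients. -/
noncomputable def CR : Subalgebra ℤ ℝ :=
  Algebra.adjoin ℤ (Set.range fun p : S × S => lam (M p.1 p.2))

theorem lam_mem (s t : S) : lam (M s t) ∈ CR M := Algebra.subset_adjoin ⟨(s, t), rfl⟩

instance cr_finite [Finite S] : Module.Finite ℤ (CR M) := by
  refine Module.Finite.iff_fg.2 (fg_adjoin_of_finite (Set.finite_range _) ?_)
  rintro _ ⟨p, rfl⟩
  have := Real.isIntegral_two_mul_cos_rat_mul_pi (1 / (M p.1 p.2 : ℚ))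
  have h1 : ((1 / (M p.1 p.2 : ℚ) : ℚ) : ℝ) * Real.pi = Real.pi / (M p.1 p.2 : ℝ) := by
    push_cast
    rw [one_div, inv_mul_eq_div]
  rw [h1] at this
  exact this

theorem act_mul_single (g : M.Group) (s t : S) :
    ac M (g * M.simple s) (al t) = ac M g (al t) + lam (M s t) • ac M g (al s) := by
  have h := root_mul_simple M.toCoxeterSystem g s t
  rw [M.toCoxeterSystem_simple] at h
  exact h

theorem act_one' (v : S →₀ ℝ) : ac M 1 v = v := act_one M.toCoxeterSystem v

theorem act_mul' (g h : M.Group) (v : S →₀ ℝ) : ac M (g * h) v = ac M g (ac M h v) :=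
  act_mul M.toCoxeterSystem g h v

/-- The coefficients of the roots are in the ring. -/
theorem coef_mem (g : M.Group) (s t : S) : ac M g (al t) s ∈ CR M := by
  induction g using M.toCoxeterSystem.simple_induction_right generalizing s t with
  | one =>
    classical
    rw [act_one', al, Finsupp.single_apply]
    split_ifs
    · exact (CR M).one_mem
    · exact (CR M).zero_mem
  | mul_simple_right w i ih =>
    rw [M.toCoxeterSystem_simple, act_mul_single, Finsupp.add_apply, Finsupp.smul_apply,
      smul_eq_mul]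
    exact (CR M).add_mem (ih s t) ((CR M).mul_mem (lam_mem M i t) (ih s i))

theorem ac_eq_sum [Fintype S] (g : M.Group) (v : S →₀ ℝ) (s : S) :
    ac M g v s = ∑ t, ac M g (al t) s * v t := by
  classical
  have h : v = ∑ t, v t • al t := by
    ext u
    rw [Finsupp.finsetSum_apply, Finset.sum_eq_single u]
    · rw [Finsupp.smul_apply, al, Finsupp.single_eq_same, smul_eq_mul, mul_one]
    · intro t _ ht
      rw [Finsupp.smul_apply, al, Finsupp.single_apply, if_neg ht, smul_zero]
    · intro h
      exact (h (Finset.mem_univ u)).elim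
  conv_lhs => rw [h]
  rw [map_sum, Finsupp.finsetSum_apply]
  refine Finset.sum_congr rfl fun t _ => ?_
  rw [map_smul, Finsupp.smul_apply, smul_eq_mul, mul_comm]

/-- The matrices of the geometric representation. -/
noncomputable def mt [Fintype S] [DecidableEq S] : M.Group →* Matrix S S (CR M) where
  toFun g := Matrix.of fun s t => ⟨ac M g (al t) s, coef_mem M g s t⟩
  map_one' := by
    ext s t
    change ac M 1 (al t) s = _
    rw [act_one', al, Matrix.one_apply, Finsupp.single_apply]
    by_cases h : s = t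
    · rw [if_pos h, if_pos h.symm]
      rfl
    · rw [if_neg h, if_neg (Ne.symm h)]
      rfl
  map_mul' g h := by
    ext s t
    rw [Matrix.mul_apply]
    change ac M (g * h) (al t) s = _
    rw [act_mul', ac_eq_sum, AddSubmonoidClass.coe_finsetSum]
    rfl

theorem mt_apply [Fintype S] [DecidableEq S] (g : M.Group) (s t : S) :
    ((mt M g s t : CR M) : ℝ) = ac M g (al t) s := rfl

/-- The geometric representation is faithful. -/
theorem ac_faithful {g : M.Group} (h : ∀ s, ac M g (al s) = al s) : g = 1 := by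
  by_contra hg
  obtain ⟨s, hs⟩ := M.toCoxeterSystem.exists_rightDescent_of_ne_one hg
  have h1 := root_nonpos M.toCoxeterSystem hs
  have h2 : (root M.toCoxeterSystem g s) = al s := h s
  rw [h2] at h1
  have h3 := h1 s
  rw [al, Finsupp.single_eq_same] at h3
  exact absurd h3 (by norm_num)

theorem mt_injective [Fintype S] [DecidableEq S] : Function.Injective (mt M) := by
  refine (injective_iff_map_eq_one _).2 fun g h => ac_faithful M fun t => ?_
  ext s
  rw [← mt_apply, h, Matrix.one_apply, al, Finsupp.single_apply]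
  by_cases h : s = t
  · rw [if_pos h, if_pos h.symm]
    rfl
  · rw [if_neg h, if_neg (Ne.symm h)]
    rfl

/-- **Coxeter groups of finite rank are groups of integral matrices.** -/
theorem coxeter_mem {C : ∀ (G : Type) [Group G], Prop} (hC : ClosedClass C)
    (hGL : ∀ n, C (GL (Fin n) ℤ)) [Finite S] : C M.Group := by
  classical
  have : Fintype S := Fintype.ofFinite S
  refine mem_of_injective hC (mt M).toHomUnits ?_ (mem_units hC hGL (CR M) S)
  intro g h hgh
  exact mt_injective M (congrArg Units.val hgh)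

/-! ### Zeros -/

/-- The powers of an automorphism of a finite free module. -/
theorem sml_mod (Λ : Type) [AddCommGroup Λ] [Module.Free ℤ Λ] [Module.Finite ℤ Λ]
    (T : (Module.End ℤ Λ)ˣ) : ∃ l : ℕ, 1 ≤ l ∧ ∀ (f : Λ →ₗ[ℤ] ℤ) (v : Λ),
      {j : ℤ | f ((T ^ ((l : ℤ) * j)).1 v) = 0}.Infinite →
        ∀ j : ℤ, f ((T ^ ((l : ℤ) * j)).1 v) = 0 := by
  classical
  let b := Module.Free.chooseBasis ℤ Λ
  let Ψ : (Module.End ℤ Λ)ˣ →* (Matrix (Module.Free.ChooseBasisIndex ℤ Λ)
      (Module.Free.ChooseBasisIndex ℤ Λ) ℤ)ˣ :=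
    Units.map (LinearMap.toMatrixAlgEquiv b).toAlgHom.toRingHom.toMonoidHom
  have h1 : ∀ (T : (Module.End ℤ Λ)ˣ) (v : Λ), (Ψ T).1 *ᵥ b.repr v = b.repr (T.1 v) :=
    fun T v => LinearMap.toMatrix_mulVec_repr b b T.1 v
  have h2 : ∀ (f : Λ →ₗ[ℤ] ℤ) (v : Λ), f v = (fun i => f (b i)) ⬝ᵥ b.repr v := by
    intro f v
    conv_lhs => rw [← b.sum_repr v]
    rw [map_sum, dotProduct]
    refine Finset.sum_congr rfl fun i _ => ?_
    rw [map_smul, smul_eq_mul, mul_comm]
  obtain ⟨l, hl, hc⟩ := exists_cong (Ψ T)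
  refine ⟨l, hl, fun f v => ?_⟩
  have h3 : ∀ j : ℤ, f ((T ^ ((l : ℤ) * j)).1 v) =
      cf (Ψ T ^ l) (fun i => f (b i)) (b.repr v) j := by
    intro j
    rw [h2, ← h1, cf, ← zpow_natCast, ← zpow_mul, ← map_zpow]
  intro hinf j
  rw [h3]
  refine sml hc _ _ ?_ j
  convert hinf using 3 with i
  rw [h3]

/-- **The zeros of the coefficients of the roots `w ^ j d`.** -/
theorem sml_cox [Finite S] (w : M.Group) : ∃ l : ℕ, 1 ≤ l ∧ ∀ (d : S →₀ ℝ), IsRoot M d →
    ∀ s : S, {j : ℤ | ac M (w ^ ((l : ℤ) * j)) d s = 0}.Infinite →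
      ∀ j : ℤ, ac M (w ^ ((l : ℤ) * j)) d s = 0 := by
  classical
  have : Fintype S := Fintype.ofFinite S
  let T : M.Group →* (Module.End ℤ (S → CR M))ˣ :=
    MonoidHom.toHomUnits
      { toFun := fun g => (Matrix.toLin' (mt M g)).restrictScalars ℤ
        map_one' := by
          rw [map_one, Matrix.toLin'_one]
          rfl
        map_mul' := fun g h => by
          rw [map_mul, Matrix.toLin'_mul]
          rfl }
  have hT : ∀ (g : M.Group) (x : S → CR M), (T g).1 x = mt M g *ᵥ x := fun g x => rfl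
  obtain ⟨l, hl, hs⟩ := sml_mod (S → CR M) (T w)
  refine ⟨l, hl, ?_⟩
  rintro d ⟨g, t, rfl⟩ s hinf j
  let c := Module.Free.chooseBasis ℤ (CR M)
  -- the vector of `g α_t`
  let v : S → CR M := fun u => mt M g u t
  have hv : ∀ j : ℤ, (((T w ^ j).1 v s : CR M) : ℝ) = ac M (w ^ j) (ac M g (al t)) s := by
    intro j
    rw [← map_zpow, hT, ← act_mul', ← mt_apply, map_mul]
    rfl
  have h0 : ∀ x : CR M, x = 0 ↔ ∀ i, c.repr x i = 0 := by
    intro x
    constructor
    · rintro rfl i
      simp
    · intro h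
      have : c.repr x = 0 := Finsupp.ext h
      simpa using this
  have h1 : ∀ j : ℤ, ac M (w ^ j) (ac M g (al t)) s = 0 ↔
      ∀ i, ((c.coord i).comp (LinearMap.proj s : (S → CR M) →ₗ[ℤ] CR M)) ((T w ^ j).1 v) = 0 := by
    intro j
    rw [← hv, ZeroMemClass.coe_eq_zero, h0]
    rfl
  rw [h1]
  intro i
  refine hs _ v ?_ j
  refine hinf.mono fun j hj => ?_
  exact (h1 _).1 hj i

end

end Pool.Agent.AIR
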