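import Pool.Agent.Helper54.EV.Girth

/-!
# The relative girth for locally reducible Artin groups

The two consequences of the theorem of van der Lek (parabolic subgroups are Artin groups, the
intersections of parabolic subgroups are parabolic) are hypotheses here.
-/

set_option autoImplicit false

namespace Pool.Agent.AIR

open Pool.Agent.Helper54.LA Pool.Agent.Helper54.EV Pool.Agent.Helper29.BA Pool.Agent.Helper13.LT
  Pool.Agent.Helper26.LT Pool.Agent.Helper9.EV Pool.Agent.Helper9.TD Pool.Agent.Helper83.EV

/-- **Locally reducible** Coxeter matrices: two of the three labels of a spherical triple are `2`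
(there is no triple of type `A₃`, `B₃` or `H₃`). -/
def LR {S : Type} (M : CoxeterMatrix S) : Prop :=
  ∀ s t u, s ≠ t → t ≠ u → s ≠ u → Sp3 M s t u →
    (M s t = 2 ∧ M t u = 2) ∨ (M t u = 2 ∧ M s u = 2) ∨ (M s t = 2 ∧ M s u = 2)

theorem LR.res {S : Type} {M : CoxeterMatrix S} (h : LR M) (U : Set S) : LR (Pool.Agent.Helper54.LA.res M U) :=
  fun s t u hst htu hsu h1 =>
    h s.1 t.1 u.1 (fun e => hst (Subtype.ext e)) (fun e => htu (Subtype.ext e))
      (fun e => hsu (Subtype.ext e)) h1

section

variable {S : Type} {M : CoxeterMatrix S}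

open Classical in
/-- The endomorphism which kills the generators in `T`; the labels of `T` and its complement are
even. -/
noncomputable def kil' (T : Set S) (hT : ∀ t ∈ T, ∀ v, v ∉ T → Even (M t v)) :
    ArtinGroup M →* ArtinGroup M :=
  artinLift M (fun s => if s ∈ T then 1 else ge M s) (by
    intro s t h0
    by_cases hs : s ∈ T
    · by_cases ht : t ∈ T
      · rw [if_pos hs, if_pos ht]
      · rw [if_pos hs, if_neg ht]
        obtain ⟨n, hn⟩ := hT s hs t ht
        rw [hn, ← two_mul, Helper83.EV.alt_one_left, Helper83.EV.alt_one_right]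
    · by_cases ht : t ∈ T
      · rw [if_neg hs, if_pos ht]
        obtain ⟨n, hn⟩ := hT t ht s hs
        rw [M.symmetric, hn, ← two_mul, Helper83.EV.alt_one_left, Helper83.EV.alt_one_right]
      · rw [if_neg hs, if_neg ht]
        exact artin_braid M s t h0)

variable {T : Set S} (hT : ∀ t ∈ T, ∀ v, v ∉ T → Even (M t v))

theorem kil'_of_mem {s : S} (h : s ∈ T) : kil' T hT (ge M s) = 1 := by
  rw [kil', ge, artinLift_of, if_pos h]

theorem kil'_of_notMem {s : S} (h : s ∉ T) : kil' T hT (ge M s) = ge M s := by
  rw [kil', ge, artinLift_of, if_neg h]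

theorem kil'_eq_one {x : ArtinGroup M} (hx : x ∈ PP M T) : kil' T hT x = 1 := by
  have h1 : PP M T ≤ (kil' T hT).ker := by
    rw [PP, Subgroup.closure_le]
    rintro _ ⟨s, hs, rfl⟩
    exact kil'_of_mem hT hs
  exact h1 hx

include hT in
/-- The commuting case: all elements of `T` commute with `i` and `j`. -/
theorem rg_commute' [Finite S] {i j : S} (hij : i ≠ j) (h0 : M i j ≠ 0) (hi : i ∉ T) (hj : j ∉ T)
    (hTi : ∀ t ∈ T, M t i = 2) (hTj : ∀ t ∈ T, M t j = 2) :
    RG (PP M T) (PP M (insert i T)) (PP M (insert j T)) (M i j) := by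
  rw [PP_insert, PP_insert]
  refine rg_of_commute (kil' T hT) (fun t ht => kil'_eq_one hT ht) (fun t ht => commute_PP hTi ht)
    (fun t ht => commute_PP hTj ht) ?_
  intro l b hl0 hl hn
  rw [kil'_of_notMem hT hi, kil'_of_notMem hT hj]
  exact Pool.Agent.Helper54.TD.artin_appel_schupp M hij h0 l b hl0 hl hn

end

/-- The relative girth of parabolic subgroups of locally reducible Artin groups. -/
theorem rg_lr_aux (vl1 : ∀ {S : Type} (M : CoxeterMatrix S) (U : Set S), Function.Injective (toAll M U))
    (vl2 : ∀ {S : Type} (M : CoxeterMatrix S) (U V : Set S), Par M U ⊓ Par M V ≤ Par M (U ∩ V))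
    (n : ℕ) : ∀ {S : Type} [Finite S] {M : CoxeterMatrix S}, LR M → ∀ T : Set S,
      T.ncard = n → ∀ i j, i ∉ T → j ∉ T → i ≠ j → M i j ≠ 0 →
      RG (Par M T) (Par M (insert i T)) (Par M (insert j T)) (M i j) := by
  induction n using Nat.strong_induction_on with
  | _ n ih =>
    -- the case without further generators
    have key : ∀ {S : Type} [Finite S] {M : CoxeterMatrix S}, LR M →
        ∀ T : Set S, T.ncard = n → ∀ i j, i ∉ T → j ∉ T → i ≠ j → M i j ≠ 0 →
        (∀ e, e ∉ T → e = i ∨ e = j) →
        RG (Par M T) (Par M (insert i T)) (Par M (insert j T)) (M i j) := by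
      intro S _ M hM T hn i j hi hj hij h0 hEij
      by_cases hA : ∃ t ∈ T, ¬ Sp3 M i j t
      · obtain ⟨t, ht, hsp⟩ := hA
        set T1 := T \ {t} with hT1
        have hins : insert t T1 = T := Set.insert_sdiff_self_of_mem ht
        have hcard : T1.ncard < n := by
          rw [← hn, hT1]
          exact Set.ncard_sdiff_singleton_lt_of_mem ht (Set.toFinite T)
        have hit : i ≠ t := fun e => hi (e ▸ ht)
        have hjt : j ≠ t := fun e => hj (e ▸ ht)
        have hrs : RS (Pool.Agent.Helper54.LA.res M T1ᶜ) (Par M T1) (fun x : ↥T1ᶜ => Par M (insert x.1 T1)) :=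
          rs_par T1 fun s u hs hu hsu hsu0 =>
            ih _ hcard hM T1 rfl s u hs hu hsu hsu0
        have hout : ∀ e, e ∉ T1 → e = i ∨ e = j ∨ e = t := by
          intro e he
          by_cases het : e = t
          · exact Or.inr (Or.inr het)
          · rcases hEij e (fun h => he ⟨h, het⟩) with h | h
            · exact Or.inl h
            · exact Or.inr (Or.inl h)
        have h2 : TwoDim (Pool.Agent.Helper54.LA.res M T1ᶜ) := by
          rintro ⟨s, hs⟩ ⟨t', ht'⟩ ⟨u, hu⟩ hst htu hsu h1 h2 h3
          rw [res_apply] at h1 h2 h3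
          have hst' : s ≠ t' := fun e => hst (Subtype.ext e)
          have htu' : t' ≠ u := fun e => htu (Subtype.ext e)
          have hsu' : s ≠ u := fun e => hsu (Subtype.ext e)
          by_contra hlt
          rw [not_le] at hlt
          have hsp' : Sp3 M s t' u := ⟨h1, h2, h3, hlt⟩
          have hs' := hout s hs
          have ht'' := hout t' ht'
          have hu' := hout u hu
          rcases hs' with rfl | rfl | rfl <;> rcases ht'' with rfl | rfl | rfl <;>
            rcases hu' with rfl | rfl | rfl <;>
            first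
            | exact hst' rfl
            | exact htu' rfl
            | exact hsu' rfl
            | exact hsp hsp'
            | exact hsp (sp3_swap hsp')
            | exact hsp (sp3_rot hsp')
            | exact hsp (sp3_rot (sp3_rot hsp'))
            | exact hsp (sp3_swap (sp3_rot hsp'))
            | exact hsp (sp3_swap (sp3_rot (sp3_rot hsp')))
        have hi1 : i ∈ T1ᶜ := fun h => hi h.1
        have hj1 : j ∈ T1ᶜ := fun h => hj h.1
        have ht1 : t ∈ T1ᶜ := fun h => h.2 rfl
        have := rg_step hrs h2 (Pool.Agent.Helper63.EV.ascInf _) (i := ⟨i, hi1⟩) (j := ⟨j, hj1⟩)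
          (t := ⟨t, ht1⟩) (fun e => hij (congrArg Subtype.val e))
          (fun e => hit (congrArg Subtype.val e)) (fun e => hjt (congrArg Subtype.val e)) h0
        change RG (Par M (insert t T1)) (Par M (insert t T1) ⊔ Par M (insert i T1))
          (Par M (insert t T1) ⊔ Par M (insert j T1)) (M i j) at this
        rwa [par_sup_insert, par_sup_insert, hins] at this
      · push Not at hA
        by_cases h2 : M i j = 2
        · rw [h2]
          refine rg_two ((vl2 M _ _).trans (par_mono M ?_)) (par_mono M (Set.subset_insert _ _))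
            (par_mono M (Set.subset_insert _ _))
          rintro s ⟨h3, h4⟩
          rcases h3 with rfl | h3
          · rcases h4 with h4 | h4
            · exact absurd h4 hij
            · exact h4
          · exact h3
        · have hcomm : ∀ t ∈ T, M t i = 2 ∧ M t j = 2 := by
            intro t ht
            have hit : i ≠ t := fun e => hi (e ▸ ht)
            have hjt : j ≠ t := fun e => hj (e ▸ ht)
            rcases hM i j t hij hjt hit (hA t ht) with ⟨h3, -⟩ | ⟨h3, h4⟩ | ⟨h3, -⟩
            · exact absurd h3 h2
            · exact ⟨by rw [M.symmetric]; exact h4, by rw [M.symmetric]; exact h3⟩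
            · exact absurd h3 h2
          have hev : ∀ t ∈ T, ∀ v, v ∉ T → Even (M t v) := by
            intro t ht v hv
            rcases hEij v hv with rfl | rfl
            · rw [(hcomm t ht).1]
              exact even_two
            · rw [(hcomm t ht).2]
              exact even_two
          exact rg_commute' hev hij h0 hi hj (fun t ht => (hcomm t ht).1)
            (fun t ht => (hcomm t ht).2)
    -- the other generators
    intro S _ M hM T hn i j hi hj hij h0
    set U : Set S := insert i (insert j T) with hU
    have hiU : i ∈ U := Set.mem_insert _ _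
    have hjU : j ∈ U := Set.mem_insert_of_mem _ (Set.mem_insert _ _)
    have hTU : T ⊆ U := fun t ht => Set.mem_insert_of_mem _ (Set.mem_insert_of_mem _ ht)
    have hT' : Subtype.val '' (Subtype.val ⁻¹' T : Set ↥U) = T := by
      rw [Subtype.image_preimage_coe, Set.inter_eq_right]
      exact hTU
    have hins : ∀ x (hx : x ∈ U), Subtype.val '' (insert ⟨x, hx⟩ (Subtype.val ⁻¹' T) : Set ↥U) =
        insert x T := by
      intro x hx
      rw [Set.image_insert_eq, hT']
    have h1 := key (LR.res hM U) (Subtype.val ⁻¹' T)
      (by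
        rw [← hn, ← Set.ncard_image_of_injective _ Subtype.val_injective, hT'])
      ⟨i, hiU⟩ ⟨j, hjU⟩ hi hj (fun e => hij (congrArg Subtype.val e)) h0
      (by
        rintro ⟨e, he⟩ heT
        rcases he with rfl | rfl | he
        · exact Or.inl rfl
        · exact Or.inr rfl
        · exact absurd he heT)
    have h2 := rg_map (vl1 M U) h1
    rw [map_toAll_par, map_toAll_par, map_toAll_par, hins, hins, hT'] at h2
    exact h2

/-- The relative girth of parabolic subgroups of locally reducible Artin groups. -/
theorem rg_lr (vl1 : ∀ {S : Type} (M : CoxeterMatrix S) (U : Set S), Function.Injective (toAll M U))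
    (vl2 : ∀ {S : Type} (M : CoxeterMatrix S) (U V : Set S), Par M U ⊓ Par M V ≤ Par M (U ∩ V))
    {S : Type} [Finite S] {M : CoxeterMatrix S} (hM : LR M) {T : Set S} {i j : S} (hij : i ≠ j)
    (h0 : M i j ≠ 0) (hi : i ∉ T) (hj : j ∉ T) :
    RG (Par M T) (Par M (insert i T)) (Par M (insert j T)) (M i j) :=
  rg_lr_aux vl1 vl2 T.ncard hM T rfl i j hi hj hij h0

/-- Parabolic subgroups as images. -/
theorem range_toAll {S : Type} (M : CoxeterMatrix S) (U : Set S) : (toAll M U).range = Par M U := by
  rw [MonoidHom.range_eq_map, ← par_univ, map_toAll_par, Set.image_univ, Subtype.range_val]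

end Pool.Agent.AIR
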