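import Pool.Agent.AIR.Step
import Pool.Agent.AIR.Lr
import Pool.Agent.Helper63.EV.Prod

/-!
# The final induction
-/

set_option autoImplicit false

namespace Pool.Agent.AIR

open Pool.Agent.Helper54.LA Pool.Agent.Helper13.LT Pool.Agent.Helper3.FJ
  Pool.Agent.Helper29.BA Pool.Agent.Helper29.PA Pool.Agent.Helper9.EV Pool.Agent.Helper9.TD
  Pool.Agent.Helper54.EV Pool.Agent.Helper54.TD

open scoped MatrixGroups

/-- `T` is irreducible: it is not the union of two nonempty subsets which commute. -/
def Irr {S : Type} (M : CoxeterMatrix S) (T : Set S) : Prop :=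
  ∀ U ⊆ T, U.Nonempty → (T \ U).Nonempty → ∃ s ∈ U, ∃ t ∈ T \ U, M s t ≠ 2

/-- All irreducible parabolic subgroups without infinite labels are in the class or locally
reducible. -/
def Good (C : ∀ (G : Type) [Group G], Prop) {S : Type} (M : CoxeterMatrix S) : Prop :=
  ∀ T : Set S, T.Finite → Irr M T → (∀ s ∈ T, ∀ t ∈ T, M s t ≠ 0) →
    C (ArtinGroup (res M T)) ∨ LR (res M T)

variable {C : ∀ (G : Type) [Group G], Prop}

theorem Good.res {S : Type} {M : CoxeterMatrix S} (hC : ClosedClass C) (h : Good C M) (Y : Set S) :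
    Good C (Pool.Agent.Helper54.LA.res M Y) := by
  intro T hT hi h0
  have h1 := h (Subtype.val '' T) (hT.image _) (by
    intro U hU hne hne'
    obtain ⟨U', rfl⟩ : ∃ U' : Set Y, Subtype.val '' U' = U :=
      ⟨Subtype.val ⁻¹' U, by
        rw [Subtype.image_preimage_coe, Set.inter_eq_right]
        intro x hx
        obtain ⟨y, -, rfl⟩ := hU hx
        exact y.2⟩
    have hU' : U' ⊆ T := (Set.image_subset_image_iff Subtype.val_injective).1 hU
    rw [← Set.image_sdiff Subtype.val_injective] at hne'
    obtain ⟨s, hs, t, ht, hst⟩ := hi U' hU' (Set.image_nonempty.1 hne) (Set.image_nonempty.1 hne')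
    refine ⟨s.1, ⟨s, hs, rfl⟩, t.1, ?_, hst⟩
    rw [← Set.image_sdiff Subtype.val_injective]
    exact ⟨t, ht, rfl⟩) (by
    rintro _ ⟨s, hs, rfl⟩ _ ⟨t, ht, rfl⟩
    exact h0 s hs t ht)
  let e : T ≃ (Subtype.val '' T : Set S) := Equiv.Set.image _ T Subtype.val_injective
  rcases h1 with h1 | h1
  · obtain ⟨φ⟩ := artinCongr (M := Pool.Agent.Helper54.LA.res (Pool.Agent.Helper54.LA.res M Y) T)
      (M' := Pool.Agent.Helper54.LA.res M (Subtype.val '' T : Set S)) e fun s t => rfl
    exact Or.inl (hC.iso _ _ φ.symm h1)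
  · refine Or.inr fun s t u hst htu hsu h3 => ?_
    exact h1 (e s) (e t) (e u) (fun h => hst (e.injective h)) (fun h => htu (e.injective h))
      (fun h => hsu (e.injective h)) h3

section

variable {S : Type} {M : CoxeterMatrix S}

theorem three_of_subset {A : Set S} {i j k : S} (hA : ∀ a ∈ A, a = i ∨ a = j ∨ a = k)
    {s t u : S} (hs : s ∈ A) (ht : t ∈ A) (hu : u ∈ A) (hst : s ≠ t) (htu : t ≠ u) (hsu : s ≠ u)
    {P : S → S → S → Prop} (h : P s t u) (h1 : ∀ a b c, P a b c → P b a c)
    (h2 : ∀ a b c, P a b c → P b c a) : P i j k := by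
  rcases hA s hs with rfl | rfl | rfl <;> rcases hA t ht with rfl | rfl | rfl <;>
    rcases hA u hu with rfl | rfl | rfl <;>
    first
    | exact absurd rfl hst
    | exact absurd rfl htu
    | exact absurd rfl hsu
    | exact h
    | exact h1 _ _ _ h
    | exact h2 _ _ _ h
    | exact h2 _ _ _ (h2 _ _ _ h)
    | exact h1 _ _ _ (h2 _ _ _ h)
    | exact h1 _ _ _ (h2 _ _ _ (h2 _ _ _ h))

theorem par_inter (U V : Set S) : Par M U ⊓ Par M V ≤ Par M (U ∩ V) := by
  rw [par_eq_range, par_eq_range, par_eq_range]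
  exact range_inter U V

/-- A triple which is not spherical has dimension two. -/
theorem twoDim_triple {i j k : S} (h : ¬ Sp3 M i j k) :
    TwoDim (Pool.Agent.Helper54.LA.res M (({i, j, k} : Set S)ᶜ)ᶜ) := by
  rintro ⟨s, hs⟩ ⟨t, ht⟩ ⟨u, hu⟩ hst htu hsu h1 h2 h3
  rw [res_apply] at h1 h2 h3
  by_contra hlt
  rw [not_le] at hlt
  rw [compl_compl] at hs ht hu
  exact h (three_of_subset (A := {i, j, k}) (fun a ha => ha) hs ht hu
    (fun e => hst (Subtype.ext e)) (fun e => htu (Subtype.ext e)) (fun e => hsu (Subtype.ext e))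
    (P := Sp3 M) ⟨h1, h2, h3, hlt⟩ (fun _ _ _ => sp3_swap) (fun _ _ _ => sp3_rot))

end

/-- The final induction. -/
theorem main_finite (hE : ExtClass C) (hC : CatClass C) (hGL : ∀ n, C (GL (Fin n) ℤ))
    (n : ℕ) : ∀ {S : Type} [Finite S] {M : CoxeterMatrix S}, Good C M → Nat.card S = n →
      C (ArtinGroup M) := by
  classical
  induction n using Nat.strong_induction_on with
  | _ n ih =>
    intro S _ M hM hn
    have ih' : ∀ Y : Set S, Y ≠ Set.univ → C (ArtinGroup (Pool.Agent.Helper54.LA.res M Y)) := by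
      intro Y hY
      refine ih (Nat.card ↥Y) ?_ (hM.res hC.toClosedClass Y) rfl
      rw [← hn]
      have h3 : Y.ncard < (Set.univ : Set S).ncard :=
        Set.ncard_lt_ncard (Set.ssubset_univ_iff.2 hY) (Set.toFinite _)
      rwa [Set.ncard_univ] at h3
    by_cases h0 : ∃ s t, M s t = 0
    · -- an infinite label
      obtain ⟨s, t, h0⟩ := h0
      have hst : s ≠ t := by
        rintro rfl
        rw [M.diagonal] at h0
        exact one_ne_zero h0
      have hcc : ∀ x : S, x ∉ ({s, t} : Set S)ᶜ → x = s ∨ x = t := fun x hx => by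
        rwa [Set.mem_compl_iff, not_not] at hx
      refine step hE hC hGL (T := {s, t}ᶜ) ?_ ?_ ?_ ih'
      · rintro ⟨a, ha⟩ ⟨b, hb⟩ ⟨c, hc⟩ hab hbc hac - - -
        exfalso
        rcases hcc a ha with rfl | rfl <;> rcases hcc b hb with rfl | rfl <;>
          rcases hcc c hc with rfl | rfl <;>
          first
          | exact hab rfl
          | exact hbc rfl
          | exact hac rfl
      · intro J hJ hu
        have hs : s ∈ ({s, t}ᶜ : Set S) ∪ Subtype.val '' (J : Set ↥({s, t}ᶜ : Set S)ᶜ) :=
          hu ▸ Set.mem_univ s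
        have ht : t ∈ ({s, t}ᶜ : Set S) ∪ Subtype.val '' (J : Set ↥({s, t}ᶜ : Set S)ᶜ) :=
          hu ▸ Set.mem_univ t
        rcases hs with hs | ⟨a, ha, has⟩
        · exact hs (by simp)
        · rcases ht with ht | ⟨b, hb, hbt⟩
          · exact ht (by simp)
          · have h1 := hJ.2 a ha b hb
            rw [res_apply, has, hbt] at h1
            exact h1 h0
      · intro i j hi hj hij hij0
        exfalso
        rcases hcc i hi with rfl | rfl <;> rcases hcc j hj with rfl | rfl
        · exact hij rfl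
        · exact hij0 h0
        · exact hij0 (by rw [M.symmetric]; exact h0)
        · exact hij rfl
    push Not at h0
    -- reducible matrices
    by_cases hirr : Irr M Set.univ
    swap
    · rw [Irr] at hirr
      push Not at hirr
      obtain ⟨U, -, hU, hU', h2⟩ := hirr
      refine Pool.Agent.Helper63.EV.of_split M hC.toClosedClass U
        (fun s hs u hu => h2 s hs u ⟨trivial, hu⟩) (ih' U ?_) (ih' Uᶜ ?_)
      · rintro rfl
        obtain ⟨x, hx⟩ := hU'
        exact hx.2 hx.1
      · intro h
        rw [Set.compl_univ_iff] at h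
        exact hU.ne_empty h
    -- no infinite label
    rcases hM Set.univ (Set.toFinite _) hirr (fun s _ t _ => h0 s t) with h1 | h1
    · obtain ⟨φ⟩ := artinCongr (M := Pool.Agent.Helper54.LA.res M (Set.univ : Set S)) (M' := M)
        (Equiv.Set.univ S) fun s t => rfl
      exact hC.iso _ _ φ h1
    have hLR : LR M := fun s t u hst htu hsu h3 =>
      h1 ⟨s, trivial⟩ ⟨t, trivial⟩ ⟨u, trivial⟩ (fun h => hst (congrArg Subtype.val h))
        (fun h => htu (congrArg Subtype.val h)) (fun h => hsu (congrArg Subtype.val h)) h3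
    by_cases hsp : ∃ i j k, i ≠ j ∧ j ≠ k ∧ i ≠ k ∧ ¬ Sp3 M i j k
    · -- a triple which is not spherical
      obtain ⟨i, j, k, hij, hjk, hik, hns⟩ := hsp
      refine step hE hC hGL (T := {i, j, k}ᶜ) (twoDim_triple hns) ?_ ?_ ih'
      · intro J hJ hu
        have hmem : ∀ x ∈ ({i, j, k} : Set S),
            ∃ a ∈ (J : Set ↥({i, j, k}ᶜ : Set S)ᶜ), a.1 = x := by
          intro x hx
          have h2 : x ∈ ({i, j, k}ᶜ : Set S) ∪ Subtype.val '' (J : Set ↥({i, j, k}ᶜ : Set S)ᶜ) :=
            hu ▸ Set.mem_univ x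
          rcases h2 with h2 | ⟨a, ha, hax⟩
          · exact absurd hx h2
          · exact ⟨a, ha, hax⟩
        obtain ⟨a, ha, ha'⟩ := hmem i (by simp)
        obtain ⟨b, hb, hb'⟩ := hmem j (by simp)
        obtain ⟨c, hc, hc'⟩ := hmem k (by simp)
        have h3 : ({a, b, c} : Finset _) ⊆ J := by
          rw [Finset.insert_subset_iff, Finset.insert_subset_iff, Finset.singleton_subset_iff]
          exact ⟨ha, hb, hc⟩
        have h4 := Finset.card_le_card h3
        rw [Finset.card_eq_three.2 ⟨a, b, c,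
          fun e => hij (ha'.symm.trans ((congrArg Subtype.val e).trans hb')),
          fun e => hik (ha'.symm.trans ((congrArg Subtype.val e).trans hc')),
          fun e => hjk (hb'.symm.trans ((congrArg Subtype.val e).trans hc')), rfl⟩] at h4
        have := hJ.1
        omega
      · intro x y hx hy hxy hxy0
        exact rg_lr (fun M U => toAll_inj U) (fun M U V => par_inter U V) hLR hxy hxy0 hx hy
    push Not at hsp
    by_cases hc : Nat.card S ≤ 2
    · -- at most two generators
      have h2 : TwoDim M := by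
        intro s t u hst htu hsu _ _ _
        exfalso
        have h3 : ({s, t, u} : Set S).ncard = 3 := Set.ncard_eq_three.2 ⟨s, t, u, hst, hsu, htu, rfl⟩
        have h4 : ({s, t, u} : Set S).ncard ≤ (Set.univ : Set S).ncard :=
          Set.ncard_le_ncard (Set.subset_univ _) (Set.toFinite _)
        rw [Set.ncard_univ] at h4
        omega
      exact artin_twoDim M hC.toClosedClass hGL h2 fun h2 hT hA hX hQ =>
        Pool.Agent.Helper13.TD.mainT hC hE h2 hT hA hX hQ
    -- products
    have hne : Nonempty S := (Nat.card_pos_iff.1 (by omega)).1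
    have stp : ∀ T : Set S, T.Nonempty → T.ncard ≤ 2 →
        (∀ s ∈ T, ∀ u, u ∉ T → M s u = 2) → C (ArtinGroup M) := by
      intro T hTn hTc hT
      refine Pool.Agent.Helper63.EV.of_split M hC.toClosedClass T hT (ih' T ?_) (ih' Tᶜ ?_)
      · rintro rfl
        rw [Set.ncard_univ] at hTc
        omega
      · intro h
        rw [Set.compl_univ_iff] at h
        exact hTn.ne_empty h
    obtain ⟨s⟩ := hne
    by_cases hs : ∃ t, s ≠ t ∧ M s t ≠ 2
    · obtain ⟨t, hst, h⟩ := hs
      refine stp {s, t} ⟨s, by simp⟩ (Set.ncard_pair hst).le ?_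
      have key : ∀ u, u ≠ s → u ≠ t → M s u = 2 ∧ M t u = 2 := by
        intro u hus hut
        rcases hLR s t u hst hut.symm hus.symm (hsp s t u hst hut.symm hus.symm) with
          h3 | h3 | h3
        · exact absurd h3.1 h
        · exact ⟨h3.2, h3.1⟩
        · exact absurd h3.1 h
      intro x hx u hu
      rw [Set.mem_insert_iff, Set.mem_singleton_iff, not_or] at hu
      rcases hx with rfl | rfl
      · exact (key u hu.1 hu.2).1
      · exact (key u hu.1 hu.2).2
    · push Not at hs
      refine stp {s} ⟨s, by simp⟩ (by simp) ?_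
      rintro x rfl u hu
      exact hs u fun e => hu e.symm

/-- **The main theorem.** -/
theorem artin_main (hE : ExtClass C) (hC : CatClass C) (hGL : ∀ n, C (GL (Fin n) ℤ)) {S : Type}
    (M : CoxeterMatrix S) (h : Good C M) : C (ArtinGroup M) :=
  of_finite M hC.toClosedClass fun i =>
    main_finite hE hC hGL _ (h.res hC.toClosedClass (i : Set S)) rfl

end Pool.Agent.AIR
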