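import Pool.Agent.AIR.Defs

/-!
# Isomorphisms of Artin groups from bijections of the generators
-/

set_option autoImplicit false

namespace Pool.Agent.AIR

open Pool.Agent.Helper54.LA Pool.Agent.Helper13.LT

variable {S : Type} {M : CoxeterMatrix S}

/-- Bijections which preserve the labels induce isomorphisms. -/
theorem artinCongr {S' : Type} {M' : CoxeterMatrix S'} (e : S ≃ S')
    (h : ∀ s t, M' (e s) (e t) = M s t) : Nonempty (ArtinGroup M ≃* ArtinGroup M') := by
  have h' : ∀ s t, M (e.symm s) (e.symm t) = M' s t := fun s t => by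
    rw [← h, Equiv.apply_symm_apply, Equiv.apply_symm_apply]
  let f : ArtinGroup M →* ArtinGroup M' := artinLift M (fun s => PresentedGroup.of (e s))
    fun s t h0 => by
      have := artin_braid M' (e s) (e t) (by rwa [h])
      rwa [h] at this
  let g : ArtinGroup M' →* ArtinGroup M := artinLift M' (fun s => PresentedGroup.of (e.symm s))
    fun s t h0 => by
      have := artin_braid M (e.symm s) (e.symm t) (by rwa [h'])
      rwa [h'] at this
  have hf : ∀ s, f (PresentedGroup.of s) = PresentedGroup.of (e s) := artinLift_of M _ _
  have hg : ∀ s, g (PresentedGroup.of s) = PresentedGroup.of (e.symm s) := artinLift_of M' _ _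
  have h1 : g.comp f = MonoidHom.id _ := PresentedGroup.ext fun s => by
    rw [MonoidHom.comp_apply, hf, hg, Equiv.symm_apply_apply]
    rfl
  have h2 : f.comp g = MonoidHom.id _ := PresentedGroup.ext fun s => by
    rw [MonoidHom.comp_apply, hg, hf, Equiv.apply_symm_apply]
    rfl
  exact ⟨MonoidHom.toMulEquiv f g h1 h2⟩

end Pool.Agent.AIR
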