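import Pool.Agent.Helper3.LR.Form
import Pool.Agent.AIR.Defs

/-!
# Roots and minimal representatives
-/

set_option autoImplicit false

namespace Pool.Agent.AIR

open Pool.Agent.Helper63.TD Pool.Agent.Helper54.LA Pool.Agent.Helper13.LT Pool.Agent.Helper3.FJ

variable {S : Type} {M : CoxeterMatrix S}

theorem ac_one (v : S →₀ ℝ) : ac M 1 v = v := act_one _ v

theorem ac_mul (g h : M.Group) (v : S →₀ ℝ) : ac M (g * h) v = ac M g (ac M h v) :=
  act_mul _ g h v

theorem ac_inv_ac (g : M.Group) (v : S →₀ ℝ) : ac M g⁻¹ (ac M g v) = v := by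
  rw [← ac_mul, inv_mul_cancel, ac_one]

theorem ac_ac_inv (g : M.Group) (v : S →₀ ℝ) : ac M g (ac M g⁻¹ v) = v := by
  rw [← ac_mul, mul_inv_cancel, ac_one]

theorem ac_simple (s : S) (v : S →₀ ℝ) : ac M (M.simple s) v = v - (2 * bil M s v) • al s :=
  act_simple M.toCoxeterSystem s v

theorem ac_simple_self (s : S) : ac M (M.simple s) (al s) = - al s := by
  rw [ac_simple, al, Helper3.LR.bil_self, mul_one, two_smul]
  abel

theorem al_nonneg (s : S) : (0 : S →₀ ℝ) ≤ al s := Finsupp.single_nonneg.2 zero_le_one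

theorem isRoot_iff {d : S →₀ ℝ} : IsRoot M d ↔ Helper3.LR.IsRoot M.toCoxeterSystem d := Iff.rfl

theorem isRoot_ac (g : M.Group) (s : S) : IsRoot M (ac M g (al s)) := ⟨g, s, rfl⟩

theorem isRoot_al (s : S) : IsRoot M (al s) := ⟨1, s, (ac_one _).symm⟩

theorem IsRoot.ac {d : S →₀ ℝ} (h : IsRoot M d) (g : M.Group) : IsRoot M (AIR.ac M g d) := by
  obtain ⟨u, s, rfl⟩ := h
  exact ⟨g * u, s, (ac_mul _ _ _).symm⟩

theorem IsRoot.neg {d : S →₀ ℝ} (h : IsRoot M d) : IsRoot M (-d) :=
  Helper3.LR.IsRoot.neg M.toCoxeterSystem h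

theorem IsRoot.ne_zero {d : S →₀ ℝ} (h : IsRoot M d) : d ≠ 0 :=
  Helper3.LR.IsRoot.ne_zero M.toCoxeterSystem h

/-- roots are positive or negative -/
theorem root_sign {d : S →₀ ℝ} (hd : IsRoot M d) : 0 ≤ d ∨ d ≤ 0 :=
  Helper3.LR.IsRoot.sign M.toCoxeterSystem hd

theorem root_not_nonneg {d : S →₀ ℝ} (hd : IsRoot M d) : ¬ 0 ≤ d ↔ d ≤ 0 :=
  Helper3.LR.IsRoot.not_nonneg M.toCoxeterSystem hd

theorem root_eq_al {d : S →₀ ℝ} (hd : IsRoot M d) (h0 : 0 ≤ d) {s : S}
    (hs : ∀ t, t ≠ s → d t = 0) : d = al s :=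
  Helper3.LR.IsRoot.eq_single M.toCoxeterSystem hd h0 hs

theorem root_simple_nonneg {d : S →₀ ℝ} (hd : IsRoot M d) (h0 : 0 ≤ d) {s : S} (hs : d ≠ al s) :
    0 ≤ ac M (M.simple s) d :=
  Helper3.LR.IsRoot.simple_nonneg M.toCoxeterSystem hd h0 hs

theorem eq_mul_of_ac {m : M.Group} {s t : S} (h : ac M m (al s) = al t) :
    m * M.simple s = M.simple t * m :=
  Helper3.LR.eq_mul_of_act M.toCoxeterSystem h

theorem exists_descent {g : M.Group} (hg : g ≠ 1) : ∃ s, ac M g (al s) ≤ 0 := by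
  obtain ⟨t, ht⟩ := M.toCoxeterSystem.exists_rightDescent_of_ne_one hg
  exact ⟨t, root_nonpos M.toCoxeterSystem ht⟩

theorem mem_VX {X : Set S} {v : S →₀ ℝ} : v ∈ VX X ↔ ∀ s, s ∉ X → v s = 0 := by
  rw [VX, Finsupp.mem_supported]
  constructor
  · intro h s hs
    by_contra hc
    exact hs (h (Finset.mem_coe.2 (Finsupp.mem_support_iff.2 hc)))
  · intro h s hs
    by_contra hc
    exact (Finsupp.mem_support_iff.1 (Finset.mem_coe.1 hs)) (h s hc)

theorem al_mem_VX {X : Set S} {x : S} : al x ∈ VX X ↔ x ∈ X := by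
  rw [mem_VX]
  constructor
  · intro h
    by_contra hc
    have := h x hc
    simp [al] at this
  · intro h s hs
    have : x ≠ s := by
      rintro rfl
      exact hs h
    simp [al, Finsupp.single_apply, this]

theorem simple_mem_WX {X : Set S} {x : S} (h : x ∈ X) : M.simple x ∈ WX M X :=
  Subgroup.subset_closure ⟨x, h, rfl⟩

theorem ac_sub_mem {X : Set S} {a : M.Group} (ha : a ∈ WX M X) (v : S →₀ ℝ) :
    ac M a v - v ∈ VX X := by
  induction ha using Subgroup.closure_induction generalizing v with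
  | mem a ha =>
    obtain ⟨x, hx, rfl⟩ := ha
    rw [ac_simple, sub_sub_cancel_left]
    exact (VX X).neg_mem ((VX X).smul_mem _ (al_mem_VX.2 hx))
  | one =>
    rw [ac_one, sub_self]
    exact (VX X).zero_mem
  | mul a b _ _ h1 h2 =>
    rw [ac_mul]
    have := (VX X).add_mem (h1 (ac M b v)) (h2 v)
    rwa [sub_add_sub_cancel] at this
  | inv a _ h1 =>
    have := (VX X).neg_mem (h1 (ac M a⁻¹ v))
    rwa [ac_ac_inv, neg_sub] at this

theorem ac_mem_VX {X : Set S} {a : M.Group} (ha : a ∈ WX M X) (v : S →₀ ℝ) :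
    ac M a v ∈ VX X ↔ v ∈ VX X := by
  have h := ac_sub_mem ha v
  exact ⟨fun h1 => by simpa using (VX X).sub_mem h1 h, fun h1 => by simpa using (VX X).add_mem h h1⟩

/-- The right descents of the elements of `WX X` are in `X`. -/
theorem descent_mem {X : Set S} {b : M.Group} (hb : b ∈ WX M X) {s : S} (h : ac M b (al s) ≤ 0) :
    s ∈ X := by
  by_contra hs
  have h1 := mem_VX.1 (ac_sub_mem hb (al s)) s hs
  have h2 := h s
  simp only [Finsupp.coe_sub, Pi.sub_apply, al, Finsupp.single_eq_same, Finsupp.coe_zero,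
    Pi.zero_apply] at h1 h2
  linarith

theorem eq_sum (v : S →₀ ℝ) : v = ∑ x ∈ v.support, v x • al x := by
  conv_lhs => rw [← Finsupp.sum_single v]
  refine Finset.sum_congr rfl fun x _ => ?_
  simp [al]

theorem smul_nonneg' {r : ℝ} {v : S →₀ ℝ} (hr : 0 ≤ r) (hv : 0 ≤ v) : 0 ≤ r • v := fun t => by
  have := hv t
  simp only [Finsupp.coe_zero, Pi.zero_apply] at this
  simpa using mul_nonneg hr this

theorem nonneg_of_mn {X : Set S} {m : M.Group} (hm : Mn M X m) {v : S →₀ ℝ} (hv : v ∈ VX X)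
    (h0 : 0 ≤ v) : 0 ≤ ac M m⁻¹ v := by
  rw [eq_sum v, map_sum]
  refine Finset.sum_nonneg fun x hx => ?_
  rw [map_smul]
  refine smul_nonneg' (h0 x) (hm x ?_)
  by_contra hc
  exact (Finsupp.mem_support_iff.1 hx) (mem_VX.1 hv x hc)

theorem nonpos_of_mn {X : Set S} {m : M.Group} (hm : Mn M X m) {v : S →₀ ℝ} (hv : v ∈ VX X)
    (h0 : v ≤ 0) : ac M m⁻¹ v ≤ 0 := by
  have := nonneg_of_mn hm ((VX X).neg_mem hv) (neg_nonneg.2 h0)
  rw [map_neg] at this
  exact neg_nonneg.1 this

theorem exists_mn (X : Set S) (g : M.Group) : ∃ m, Mn M X m ∧ g * m⁻¹ ∈ WX M X := by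
  induction hn : M.toCoxeterSystem.length g using Nat.strong_induction_on generalizing g with
  | _ n ih =>
    by_cases h : Mn M X g
    · exact ⟨g, h, by rw [mul_inv_cancel]; exact one_mem _⟩
    · rw [Mn] at h
      push Not at h
      obtain ⟨x, hx, h1⟩ := h
      have h2 : M.toCoxeterSystem.IsRightDescent g⁻¹ x :=
        (root_nonpos_iff M.toCoxeterSystem).1 ((root_not_nonneg (isRoot_ac _ _)).1 h1)
      have h3 : M.toCoxeterSystem.length (M.simple x * g) < n := by
        have h4 : M.toCoxeterSystem.length (g⁻¹ * M.toCoxeterSystem.simple x) <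
          M.toCoxeterSystem.length g⁻¹ := h2
        rw [← M.toCoxeterSystem.length_inv, M.toCoxeterSystem.length_inv g, mul_inv_rev,
          M.toCoxeterSystem.inv_simple, inv_inv, hn] at h4
        exact h4
      obtain ⟨m, h4, h5⟩ := ih _ h3 (M.simple x * g) rfl
      refine ⟨m, h4, ?_⟩
      have h6 := (WX M X).mul_mem (simple_mem_WX hx) h5
      have h7 : M.simple x * M.simple x = 1 := M.toCoxeterSystem.simple_mul_simple_self x
      rwa [mul_assoc, ← mul_assoc (M.simple x), h7, one_mul] at h6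

theorem mr_spec (X : Set S) (g : M.Group) : Mn M X (mr M X g) ∧ g * (mr M X g)⁻¹ ∈ WX M X := by
  classical
  rw [mr, dif_pos (exists_mn X g)]
  exact (exists_mn X g).choose_spec

theorem mr_mn (X : Set S) (g : M.Group) : Mn M X (mr M X g) := (mr_spec X g).1

theorem mr_mem (X : Set S) (g : M.Group) : g * (mr M X g)⁻¹ ∈ WX M X := (mr_spec X g).2

theorem mn_unique {X : Set S} {m m' : M.Group} (hm : Mn M X m) (hm' : Mn M X m')
    (h : m' * m⁻¹ ∈ WX M X) : m' = m := by
  by_contra hc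
  have hb : (m' * m⁻¹)⁻¹ ≠ 1 := fun h1 => hc (by rwa [inv_eq_one, mul_inv_eq_one] at h1)
  obtain ⟨x, hx⟩ := exists_descent hb
  have h1 := (WX M X).inv_mem h
  have hxX := descent_mem h1 hx
  have h2 := nonpos_of_mn hm ((ac_mem_VX h1 _).2 (al_mem_VX.2 hxX)) hx
  have h3 := hm' x hxX
  rw [← ac_mul, mul_inv_rev, inv_inv, inv_mul_cancel_left] at h2
  exact (isRoot_ac (M := M) m'⁻¹ x).ne_zero (le_antisymm h2 h3)

theorem mr_unique {X : Set S} {a m : M.Group} (ha : a ∈ WX M X) (hm : Mn M X m) :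
    mr M X (a * m) = m := by
  refine mn_unique hm (mr_mn X _) ?_
  have h := (WX M X).mul_mem ((WX M X).inv_mem (mr_mem X (a * m))) ha
  have e : (a * m * (mr M X (a * m))⁻¹)⁻¹ * a = mr M X (a * m) * m⁻¹ := by group
  rwa [e] at h

/-- Deodhar's lemma -/
theorem deodhar {X : Set S} {m : M.Group} (hm : Mn M X m) {s : S} (h : ac M m (al s) ∈ VX X) :
    ∃ x ∈ X, ac M m (al s) = al x := by
  have hr := isRoot_ac (M := M) m s
  rcases root_sign hr with h0 | h0
  · obtain ⟨x, hx⟩ : ∃ x, ac M m (al s) x ≠ 0 := by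
      by_contra hc
      push Not at hc
      exact hr.ne_zero (Finsupp.ext hc)
    have hxX : x ∈ X := by
      by_contra hc
      exact hx (mem_VX.1 h x hc)
    have hx0 : 0 < ac M m (al s) x := lt_of_le_of_ne (h0 x) (Ne.symm hx)
    refine ⟨x, hxX, ?_⟩
    have h1 : ac M m (al s) x • ac M m⁻¹ (al x) ≤ al s := by
      have h2 : 0 ≤ ac M m⁻¹ (ac M m (al s) - ac M m (al s) x • al x) := by
        refine nonneg_of_mn hm ((VX X).sub_mem h ((VX X).smul_mem _ (al_mem_VX.2 hxX))) fun t => ?_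
        by_cases ht : x = t
        · subst ht
          simp [al]
        · have := h0 t
          simpa [al, Finsupp.single_apply, ht] using this
      rw [map_sub, ac_inv_ac, map_smul] at h2
      exact sub_nonneg.1 h2
    have h3 : ac M m⁻¹ (al x) = al s := by
      refine root_eq_al (isRoot_ac _ _) (hm x hxX) fun t ht => ?_
      have h4 := h1 t
      have h5 := hm x hxX t
      simp only [Finsupp.coe_zero, Pi.zero_apply] at h5
      simp only [Finsupp.coe_smul, Pi.smul_apply, smul_eq_mul, al,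
        Finsupp.single_eq_of_ne ht] at h4
      refine le_antisymm ?_ h5
      by_contra hc
      push Not at hc
      have := mul_pos hx0 hc
      simp only [al] at this
      linarith
    rw [← h3, ac_ac_inv]
  · exfalso
    have h1 := nonpos_of_mn hm h h0
    rw [ac_inv_ac] at h1
    exact (isRoot_al (M := M) s).ne_zero (le_antisymm h1 (al_nonneg s))

theorem mn_mul {X : Set S} {m : M.Group} (hm : Mn M X m) {s : S} (h : ac M m (al s) ∉ VX X) :
    Mn M X (m * M.simple s) := by
  intro x hx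
  have e : (M.simple s)⁻¹ = M.simple s := M.toCoxeterSystem.inv_simple s
  rw [mul_inv_rev, e, ac_mul]
  refine root_simple_nonneg (isRoot_ac _ _) (hm x hx) fun h1 => h ?_
  rw [← h1, ac_ac_inv]
  exact al_mem_VX.2 hx

/-- equal roots have equal reflections -/
theorem refl_eq {g h : M.Group} {s t : S} (e : ac M g (al s) = ac M h (al t)) :
    g * M.simple s * g⁻¹ = h * M.simple t * h⁻¹ :=
  (Helper3.LR.refl_eq M.toCoxeterSystem (w := g) (w' := h) (s := s) (t := t) (r := 1)
    (by rw [one_smul]; exact e)).2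

theorem cl_injective {m n : ℕ} (h : cl m = cl n) : m = n := by
  have key : ∀ k : ℕ, Real.pi / k ∈ Set.Icc 0 Real.pi := by
    intro k
    refine ⟨div_nonneg Real.pi_pos.le (Nat.cast_nonneg k), ?_⟩
    rcases Nat.eq_zero_or_pos k with rfl | hk
    · simp [Real.pi_pos.le]
    · exact div_le_self Real.pi_pos.le (by exact_mod_cast hk)
  have h1 := Real.injOn_cos (key m) (key n) h
  rcases Nat.eq_zero_or_pos m with rfl | hm
  · rcases Nat.eq_zero_or_pos n with rfl | hn
    · rfl
    · exfalso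
      rw [Nat.cast_zero, div_zero] at h1
      exact (div_pos Real.pi_pos (by exact_mod_cast hn)).ne h1
  · rcases Nat.eq_zero_or_pos n with rfl | hn
    · exfalso
      rw [Nat.cast_zero, div_zero] at h1
      exact (div_pos Real.pi_pos (by exact_mod_cast hm)).ne' h1
    · have hm' : (m : ℝ) ≠ 0 := by exact_mod_cast hm.ne'
      have hn' : (n : ℝ) ≠ 0 := by exact_mod_cast hn.ne'
      rw [div_eq_div_iff hm' hn'] at h1
      have := mul_left_cancel₀ Real.pi_pos.ne' h1
      exact_mod_cast this.symm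

/-- equal labels -/
theorem label_eq {g h : M.Group} {s t x y : S} (e : ac M g (al s) = al x)
    (e' : ac M g (al t) = al y) : M s t = M x y := by
  have h1 := Helper3.LR.Bf_act M.toCoxeterSystem g (al s) (al t)
  have key : ∀ s t : S, Helper3.LR.Bf M (al s) (al t) = - cl (M s t) := by
    intro s t
    rw [al, al, Helper3.LR.Bf_single, bil_single]
    ring
  have h2 : Helper3.LR.Bf M (al x) (al y) = Helper3.LR.Bf M (al s) (al t) := by
    rw [← h1, ← e, ← e']
    rfl
  rw [key, key, neg_inj] at h2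
  exact (cl_injective h2).symm

/-- a reflection is in the parabolic subgroup iff its root is in the span -/
theorem refl_mem {X : Set S} {g : M.Group} {s : S} :
    g * M.simple s * g⁻¹ ∈ WX M X ↔ ac M g (al s) ∈ VX X := by
  constructor
  · intro h
    have h1 := ac_sub_mem h (ac M g (al s))
    rw [ac_mul, ac_inv_ac, ac_mul, ac_simple_self, map_neg] at h1
    have h2 : ac M g (al s) = (-(1 / 2) : ℝ) • (-ac M g (al s) - ac M g (al s)) := by
      rw [smul_sub, smul_neg, neg_smul, neg_neg, sub_neg_eq_add, ← add_smul]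
      norm_num
    rw [h2]
    exact (VX X).smul_mem _ h1
  · intro h
    have ha := mr_mem X g
    have h1 : ac M (mr M X g) (al s) ∈ VX X := by
      rw [← ac_mem_VX ha, ← ac_mul, inv_mul_cancel_right]
      exact h
    obtain ⟨x, hx, h2⟩ := deodhar (mr_mn X g) h1
    have h3 := eq_mul_of_ac h2
    have e : g * M.simple s * g⁻¹ =
        (g * (mr M X g)⁻¹) * (mr M X g * M.simple s) * (mr M X g)⁻¹ * (g * (mr M X g)⁻¹)⁻¹ := by
      group
    rw [e, h3]
    have e2 : g * (mr M X g)⁻¹ * (M.simple x * mr M X g) * (mr M X g)⁻¹ * (g * (mr M X g)⁻¹)⁻¹ =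
        g * (mr M X g)⁻¹ * M.simple x * (g * (mr M X g)⁻¹)⁻¹ := by group
    rw [e2]
    exact (WX M X).mul_mem ((WX M X).mul_mem ha (simple_mem_WX hx)) ((WX M X).inv_mem ha)

end Pool.Agent.AIR
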