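import Pool.Agent.AIR.Cmp
import Pool.Agent.AIR.Coc

/-!
# The theorem of van der Lek

Parabolic subgroups of Artin groups are Artin groups, the intersections of standard parabolic
subgroups are standard parabolic subgroups.
-/

set_option autoImplicit false

namespace Pool.Agent.AIR

open Pool.Agent.Helper63.TD Pool.Agent.Helper54.LA Pool.Agent.Helper13.LT Pool.Agent.Helper3.FJ

variable {S : Type} {M : CoxeterMatrix S}

/-- Parabolic subgroups of Artin groups are Artin groups. -/
theorem toAll_inj (X : Set S) : Function.Injective (toAll M X) := by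
  obtain ⟨c, hc⟩ := exists_coc (M := M) X
  exact Function.LeftInverse.injective (g := c 1) fun a => coc_toAll hc a

/-- The minimal representatives of elements of `WX Y` are in `WX Y`. -/
theorem mr_mem_WX {X Y : Set S} {g : M.Group} (hg : g ∈ WX M Y) : mr M X g ∈ WX M Y := by
  have key : ∀ (g : M.Group) (y : S), y ∈ Y → mr M X g ∈ WX M Y →
      mr M X (g * M.simple y) ∈ WX M Y := by
    intro g y hy h
    by_cases h1 : ac M g (al y) ∈ VX X
    · rw [mem_iff] at h1
      obtain ⟨x, hx, h2⟩ := deodhar (mr_mn X g) h1
      rw [(mr_in hx h2).1]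
      exact h
    · rw [mr_out h1]
      exact mul_mem h (Subgroup.subset_closure ⟨y, hy, rfl⟩)
  induction hg using Subgroup.closure_induction_right with
  | one =>
    rw [mr_one]
    exact one_mem _
  | mul_right g s hg hs ih =>
    obtain ⟨y, hy, rfl⟩ := hs
    exact key g y hy ih
  | mul_inv_cancel g s hg hs ih =>
    obtain ⟨y, hy, rfl⟩ := hs
    have : (M.simple y)⁻¹ = M.simple y := M.toCoxeterSystem.inv_simple y
    rw [this]
    exact key g y hy ih

/-- Intersections of parabolic subgroups are parabolic. -/
theorem range_inter (X Y : Set S) :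
    (toAll M X).range ⊓ (toAll M Y).range ≤ (toAll M (X ∩ Y)).range := by
  obtain ⟨c, hc⟩ := exists_coc (M := M) X
  have key : ∀ (b : ArtinGroup (res M Y)) (g : M.Group), g ∈ WX M Y →
      toAll M X (c g (toAll M Y b)) ∈ (toAll M (X ∩ Y)).range := by
    intro b
    induction b using art_induction with
    | of y =>
      intro g hg
      rw [toAll_gn, hc.of]
      by_cases h1 : ac M g (al y.1) ∈ VX X
      · have h1' := h1
        rw [mem_iff] at h1'
        obtain ⟨x, hx, h2⟩ := deodhar (mr_mn X g) h1'
        rw [lab_in ⟨x, hx⟩ h2, toAll_gn]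
        have h3 : al x ∈ VX Y := by
          rw [← h2]
          exact (ac_mem_VX (mr_mem_WX hg) _).2 (al_mem_VX.2 y.2)
        exact ⟨gn (res M (X ∩ Y)) ⟨x, hx, al_mem_VX.1 h3⟩, toAll_gn _ _⟩
      · rw [lab_out h1, map_one]
        exact one_mem _
    | one =>
      intro g hg
      rw [map_one, hc.one, map_one]
      exact one_mem _
    | mul a b iha ihb =>
      intro g hg
      rw [map_mul, hc.mul, map_mul]
      exact mul_mem (iha g hg) (ihb _ (mul_mem hg (pr_toAll a)))
    | inv a ih =>
      intro g hg
      rw [map_inv, hc.inv, map_inv]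
      exact inv_mem (ih _ (mul_mem hg (inv_mem (pr_toAll a))))
  rintro x ⟨⟨a, rfl⟩, ⟨b, hb⟩⟩
  have h1 := key b 1 (one_mem _)
  rw [hb, coc_toAll hc] at h1
  exact h1

end Pool.Agent.AIR
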