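import Pool.Agent.AIR.Vert
import Pool.Agent.AIR.Res
import Pool.Agent.AIR.Vdl
import Pool.Agent.AIR.Integral
import Pool.Agent.Helper54.EV.Final

/-!
# The step theorem
-/

set_option autoImplicit false

namespace Pool.Agent.AIR

open Pool.Agent.Helper54.LA Pool.Agent.Helper13.LT Pool.Agent.Helper3.FJ
  Pool.Agent.Helper29.BA Pool.Agent.Helper29.PA Pool.Agent.Helper9.EV Pool.Agent.Helper9.TD
  Pool.Agent.Helper54.EV

open scoped MatrixGroups

variable {S : Type} {M : CoxeterMatrix S}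

theorem par_eq_range (Y : Set S) : Par M Y = (toAll M Y).range := by
  have h := map_toAll_par (M := M) Y Set.univ
  rw [par_univ, ← MonoidHom.range_eq_map, Set.image_univ, Subtype.range_val] at h
  exact h.symm

/-- **The step theorem.** The generators outside of `T` have no spherical triples, and the cosets of
the parabolic subgroups which contain `T` form a typed complex: if all proper parabolic subgroups
are in the class, then the Artin group is in the class. -/
theorem step {C : ∀ (G : Type) [Group G], Prop} (hE : ExtClass C) (hC : CatClass C)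
    (hGL : ∀ n, C (GL (Fin n) ℤ)) [Finite S] {T : Set S} (h2 : TwoDim (res M Tᶜ))
    (hJ : ∀ J : Finset ↥Tᶜ, SJ (res M Tᶜ) J →
      T ∪ Subtype.val '' (J : Set ↥Tᶜ) ≠ Set.univ)
    (hrg : ∀ i j, i ∉ T → j ∉ T → i ≠ j → M i j ≠ 0 →
      RG (Par M T) (Par M (insert i T)) (Par M (insert j T)) (M i j))
    (ih : ∀ Y : Set S, Y ≠ Set.univ → C (ArtinGroup (res M Y))) : C (ArtinGroup M) := by
  refine hE.ext (ArtinGroup M) M.Group (pr M) (coxeter_mem M hC.toClosedClass hGL) fun w => ?_
  obtain ⟨V, _, X, τ, c0, hTK, hA, hX, -, -, -, -, h8, h9⟩ :=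
    Pool.Agent.Helper63.EV.rel_cx (rs_par T hrg)
  have hA' : ActsI ((Subgroup.zpowers w).comap (pr M)) X τ :=
    ⟨⟨fun g u v h => hA.acts.1 g.1 u v h, fun g u v x h => hA.acts.2 g.1 u v x h⟩,
      fun g v => hA.inv g.1 v⟩
  refine Pool.Agent.Helper13.EV.mainI hC hE h2 hTK hA' hX fun K => ?_
  obtain ⟨Q, hQ, f, hCQ, hf⟩ := exists_joint hC.toClosedClass
    (G := (Subgroup.zpowers w).comap (pr M)) K (fun v => {x | x • v = v → x = 1}) fun v => by
      obtain ⟨g, hg⟩ := h8 v
      obtain ⟨Q, hQ, f, hCQ, hf⟩ := vertex_hom hE (M := M) (hJ (τ v) (h9 v)) ih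
        ((pr M g)⁻¹ * w * pr M g)
      let φ : (Subgroup.zpowers w).comap (pr M) →*
          (Subgroup.zpowers ((pr M g)⁻¹ * w * pr M g)).comap (pr M) :=
        ((MulAut.conj g⁻¹).toMonoidHom.comp (Subgroup.subtype _)).codRestrict _ (by
          rintro ⟨x, hx⟩
          obtain ⟨k, hk⟩ := hx
          refine ⟨k, ?_⟩
          change ((pr M g)⁻¹ * w * pr M g) ^ k = pr M (g⁻¹ * x * g⁻¹⁻¹)
          have e : (pr M g)⁻¹ * w * pr M g = (pr M g)⁻¹ * w * (pr M g)⁻¹⁻¹ := by rw [inv_inv]
          rw [e, conj_zpow, map_mul, map_mul, map_inv, map_inv, map_inv]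
          change _ * (w ^ k) * _ = _
          change w ^ k = pr M x at hk
          rw [hk])
      refine ⟨Q, hQ, f.comp φ, hCQ, fun x hx hxv => ?_⟩
      have hy := (hg x.1).1 hxv
      rw [pj_par, par_eq_range] at hy
      have h3 : φ x = 1 := by
        refine hf (φ x) ?_ hx
        change g⁻¹ * x.1 * g⁻¹⁻¹ ∈ _
        rw [inv_inv]
        exact hy
      have h4 : g⁻¹ * x.1 * g⁻¹⁻¹ = 1 := congrArg Subtype.val h3
      rw [inv_inv, mul_assoc, inv_mul_eq_one] at h4
      exact Subtype.ext (mul_eq_right.1 h4.symm)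
  exact ⟨Q, hQ, f, hCQ, fun v hv x hxv hx => hf x hx v hv hxv⟩

end Pool.Agent.AIR
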