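import Pool.Agent.AIR.Defs
import Pool.Agent.T59.LocFin

/-!
# Images in unrestricted wreath products with the integers
-/

set_option autoImplicit false

namespace Pool.Agent.AIR

open Pool.Agent.Helper29.BA Pool.Agent.Helper29.PA Pool.Agent.T59

/-- the translations of the integers as permutations -/
def trn : Multiplicative ℤ →* Equiv.Perm ℤ where
  toFun n := Equiv.subRight n.toAdd
  map_one' := by
    ext i
    simp
  map_mul' a b := by
    ext i
    simp only [toAdd_mul, Equiv.subRight_apply, Equiv.Perm.coe_mul, Function.comp_apply]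
    ring

/-- from the wreath product with the integers to the one with all permutations -/
def toUW (K : Type) [Group K] : WZ K →* UW K ℤ :=
  SemidirectProduct.map (MonoidHom.id (ℤ → K)) trn (fun n => by
    ext φ i
    simp only [MonoidHom.id_comp, MonoidHom.comp_id, MulEquiv.coe_toMonoidHom]
    rw [shf_apply, permFun_apply]
    congr 1)

theorem toUW_left {K : Type} [Group K] (x : WZ K) : (toUW K x).left = x.left := rfl

theorem toUW_right {K : Type} [Group K] (x : WZ K) : (toUW K x).right = trn x.right := rfl

theorem image_mem {C : ∀ (G : Type) [Group G], Prop} (hC : ExtClass C) {H K B : Type} [Group H]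
    [Group K] [Group B] (hK : C K) (hB : C B) (F : H →* WZ K) (r : H →* B)
    (h : ∀ x, r x = 1 → (F x).right = 1 → {i | (F x).left i ≠ 1}.Finite) :
    C (F.prod r).range := by
  let p : (F.prod r).range →* Multiplicative ℤ × B :=
    ((SemidirectProduct.rightHom.comp (MonoidHom.fst (WZ K) B)).prod (MonoidHom.snd (WZ K) B)).comp
      (F.prod r).range.subtype
  let ψ : (F.prod r).range →* UW K ℤ :=
    ((toUW K).comp (MonoidHom.fst (WZ K) B)).comp (F.prod r).range.subtype
  have hp : ∀ x, p x = 1 → x.1.1.right = 1 ∧ x.1.2 = 1 := fun x hx => by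
    have h1 := congrArg Prod.fst hx
    have h2 := congrArg Prod.snd hx
    exact ⟨h1, h2⟩
  refine mem_of_wreathType hC p (hC.prod _ _ hC.int hB) hK ψ ?_ ?_
  · intro x hx
    obtain ⟨h1, h2⟩ := hp x hx
    constructor
    · change trn x.1.1.right = 1
      rw [h1, map_one]
    · obtain ⟨y, hy⟩ := x.2
      have e1 : F y = x.1.1 := congrArg Prod.fst hy
      have e2 : r y = x.1.2 := congrArg Prod.snd hy
      have := h y (by rw [e2, h2]) (by rw [e1, h1])
      rw [e1] at this
      exact this
  · intro x hx hψ
    obtain ⟨h1, h2⟩ := hp x hx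
    have h3 : x.1.1.left = 1 := congrArg SemidirectProduct.left hψ
    apply Subtype.ext
    refine Prod.ext ?_ h2
    exact SemidirectProduct.ext h3 h1

end Pool.Agent.AIR
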