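import Pool.Agent.AIR.Cmp
import Pool.Agent.AIR.Coc
import Pool.Agent.AIR.Wz
import Pool.Agent.AIR.Ind
import Pool.Agent.AIR.Core

/-!
# Homomorphisms which are injective on the stabilizers
-/

set_option autoImplicit false

namespace Pool.Agent.AIR

open Pool.Agent.Helper63.TD Pool.Agent.Helper54.LA Pool.Agent.Helper13.LT Pool.Agent.Helper3.FJ
  Pool.Agent.Helper29.BA Pool.Agent.Helper29.PA

section general

variable {G W : Type} [Group G] [Group W]

/-- The preimage of the cyclic subgroup. -/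
def Hw (p : G →* W) (w : W) : Subgroup G := (Subgroup.zpowers w).comap p

theorem mem_Hw {p : G →* W} {w : W} {x : G} : x ∈ Hw p w ↔ ∃ j : ℤ, w ^ j = p x := Iff.rfl

/-- The preimage of a power of the generator has finite index. -/
theorem finiteIndex_pow (p : G →* W) (w : W) {k : ℕ} (hk : 1 ≤ k) :
    ((Hw p (w ^ k)).subgroupOf (Hw p w)).FiniteIndex := by
  have h1 : (Subgroup.zpowers (w ^ k)).relIndex (Subgroup.zpowers w) ≠ 0 := by
    have hf : Finite ((Subgroup.zpowers w) ⧸ (Subgroup.zpowers (w ^ k)).subgroupOf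
        (Subgroup.zpowers w)) := by
      have hs : Function.Surjective (fun j : Fin k =>
          (QuotientGroup.mk (⟨w ^ (j : ℕ), Subgroup.npow_mem_zpowers w _⟩ : Subgroup.zpowers w) :
            (Subgroup.zpowers w) ⧸ (Subgroup.zpowers (w ^ k)).subgroupOf (Subgroup.zpowers w))) := by
        intro q
        induction q using QuotientGroup.induction_on with
        | H x =>
          obtain ⟨x, n, rfl⟩ := x
          have hk' : (0 : ℤ) < k := by exact_mod_cast hk
          refine ⟨⟨(n % k).toNat, ?_⟩, ?_⟩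
          · have := Int.emod_lt_of_pos n hk'
            have := Int.emod_nonneg n hk'.ne'
            omega
          · rw [QuotientGroup.eq, Subgroup.mem_subgroupOf]
            refine ⟨n / k, ?_⟩
            have h2 : (((n % k).toNat : ℕ) : ℤ) = n % k :=
              Int.toNat_of_nonneg (Int.emod_nonneg n hk'.ne')
            change (w ^ k) ^ (n / k) = (w ^ (n % k).toNat)⁻¹ * w ^ n
            rw [← zpow_natCast, ← zpow_natCast, h2, ← zpow_mul, ← zpow_neg, ← zpow_add]
            congr 1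
            have := Int.emod_add_mul_ediv n k
            linarith
      exact Finite.of_surjective _ hs
    have := Subgroup.finiteIndex_of_finite_quotient
      (H := (Subgroup.zpowers (w ^ k)).subgroupOf (Subgroup.zpowers w))
    exact this.index_ne_zero
  refine ⟨?_⟩
  exact Subgroup.relIndex_comap_ne_zero p h1

/-- The inclusion of the subgroup. -/
def toHw (p : G →* W) (w : W) (k : ℕ) : (Hw p (w ^ k)).subgroupOf (Hw p w) →* Hw p (w ^ k) where
  toFun x := ⟨x.1.1, x.2⟩
  map_one' := rfl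
  map_mul' _ _ := rfl

/-- The statement to be proved. -/
def HasHom (C : ∀ (G : Type) [Group G], Prop) (H : Subgroup G) (P : Subgroup G) : Prop :=
  ∃ (Q : Type) (_ : Group Q) (f : H →* Q), C Q ∧ ∀ x : H, x.1 ∈ P → f x = 1 → x.1 = 1

theorem HasHom.of_pow {C : ∀ (G : Type) [Group G], Prop} (hC : ClosedClass C) {p : G →* W}
    {w : W} {k : ℕ} (hk : 1 ≤ k) {P : Subgroup G} (h : HasHom C (Hw p (w ^ k)) P) :
    HasHom C (Hw p w) P := by
  obtain ⟨Q, _, f, hQ, hf⟩ := h
  have := finiteIndex_pow p w hk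
  obtain ⟨Q', _, f', hQ', hf'⟩ := induce hC ((Hw p (w ^ k)).subgroupOf (Hw p w)) hQ
    (f.comp (toHw p w k)) (P.subgroupOf _) (fun x hx h1 h2 => Subtype.ext (hf (toHw p w k ⟨x, hx⟩) h1 h2))
  exact ⟨Q', _, f', hQ', fun x hx h => congrArg Subtype.val (hf' x hx h)⟩

variable {p : G →* W} {w : W}

/-- The exponent. -/
theorem exists_exp (hw : ∀ k : ℕ, 1 ≤ k → w ^ k ≠ 1) :
    ∃ e : Hw p w →* Multiplicative ℤ, ∀ x, w ^ (e x).toAdd = p x.1 := by
  have hinj : Function.Injective (zpowersHom W w) := by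
    rw [injective_iff_map_eq_one]
    intro n hn
    by_contra hne
    rw [zpowersHom_apply] at hn
    have hne' : n.toAdd ≠ 0 := fun h => hne (by rw [← ofAdd_toAdd n, h]; rfl)
    have h2 : w ^ n.toAdd.natAbs = 1 := by
      rcases Int.natAbs_eq n.toAdd with h | h
      · rw [← zpow_natCast, ← h, hn]
      · rw [← zpow_natCast, ← neg_eq_iff_eq_neg.2 h, zpow_neg, hn, inv_one]
    exact hw _ (Int.natAbs_pos.2 hne') h2
  have hrange : ∀ x : Hw p w, p x.1 ∈ (zpowersHom W w).range := by
    intro x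
    obtain ⟨j, hj⟩ := x.2
    exact ⟨Multiplicative.ofAdd j, hj⟩
  refine ⟨(MonoidHom.ofInjective hinj).symm.toMonoidHom.comp
    ((p.comp (Subgroup.subtype _)).codRestrict _ hrange), fun x => ?_⟩
  have h1 := (MonoidHom.ofInjective hinj).apply_symm_apply
    (((p.comp (Subgroup.subtype _)).codRestrict _ hrange) x)
  exact congrArg Subtype.val h1

end general

variable {S : Type} {M : CoxeterMatrix S}

/-- The elements under which the cocycle is invariant. -/
def inv (X : Set S) (c : M.Group → ArtinGroup M → ArtinGroup (res M X)) : Subgroup M.Group where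
  carrier := {u | ∀ g a, c (u * g) a = c g a}
  one_mem' := fun g a => by rw [one_mul]
  mul_mem' := fun {u v} hu hv g a => by rw [mul_assoc, hu, hv]
  inv_mem' := fun {u} hu g a => by rw [← hu (u⁻¹ * g), mul_inv_cancel_left]

theorem coc_one {X : Set S} {c : M.Group → ArtinGroup M → ArtinGroup (res M X)}
    (hc : IsCoc M X c) (g : M.Group) : c g 1 = 1 := by
  have := hc.mul g 1 1
  rw [mul_one, map_one, mul_one] at this
  exact (left_eq_mul.1 this)

/-- The homomorphism to the Artin group of type `Y`. -/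
theorem exists_hom {Y : Set S} {c : M.Group → ArtinGroup M → ArtinGroup (res M Y)}
    (hc : IsCoc M Y c) {o w : M.Group} (h : o * w * o⁻¹ ∈ inv Y c) :
    ∃ r : Hw (pr M) w →* ArtinGroup (res M Y), ∀ x, r x = c o x.1 := by
  have hinv : ∀ j : ℤ, ∀ b, c (o * w ^ j) b = c o b := by
    intro j b
    have h2 : (o * w * o⁻¹) ^ j ∈ inv Y c := zpow_mem h j
    have h3 := h2 o b
    rwa [conj_zpow, inv_mul_cancel_right] at h3
  refine ⟨{ toFun := fun x => c o x.1, map_one' := coc_one hc o, map_mul' := fun a b => ?_ },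
    fun x => rfl⟩
  change c o (a.1 * b.1) = _
  rw [hc.mul]
  obtain ⟨j, hj⟩ := a.2
  change w ^ j = pr M a.1 at hj
  rw [← hj, hinv]

/-- The homomorphism to the wreath product. -/
theorem exists_wr {X : Set S} {c : M.Group → ArtinGroup M → ArtinGroup (res M X)}
    (hc : IsCoc M X c) {w : M.Group} (e : Hw (pr M) w →* Multiplicative ℤ)
    (he : ∀ x, w ^ (e x).toAdd = pr M x.1) :
    ∃ F : Hw (pr M) w →* WZ (ArtinGroup (res M X)), ∀ x, (F x).right = e x ∧
      ∀ i, (F x).left i = c (w ^ i) x.1 := by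
  refine ⟨{
    toFun := fun x => ⟨fun i => c (w ^ i) x.1, e x⟩
    map_one' := ?_
    map_mul' := fun a b => ?_ }, fun x => ⟨rfl, fun i => rfl⟩⟩
  · refine SemidirectProduct.ext (funext fun i => coc_one hc _) (map_one e)
  · refine SemidirectProduct.ext (funext fun i => ?_) (map_mul e a b)
    change c (w ^ i) (a.1 * b.1) = c (w ^ i) a.1 * c (w ^ (i + (e a).toAdd)) b.1
    rw [hc.mul, zpow_add, he]

/-- Finiteness of the support. -/
theorem finite_supp {X Y : Set S} {c : M.Group → ArtinGroup M → ArtinGroup (res M X)}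
    (hc : IsCoc M X c) {cY : M.Group → ArtinGroup M → ArtinGroup (res M Y)}
    (hcY : IsCoc M Y cY) {o w : M.Group} (ho : Mn M Y o)
    (hfin : ∀ d, IsRoot M d → ac M o d ∉ VX Y → {i : ℤ | ac M (w ^ i) d ∈ VX X}.Finite)
    {x : ArtinGroup M} (hx : cY o x = 1) : {i : ℤ | c (w ^ i) x ≠ 1}.Finite := by
  classical
  obtain ⟨L, hL, hcmp⟩ := compare hcY ho x
  have hfin' : (⋃ d ∈ {d | d ∈ L ∧ d ∉ VX Y},
      {i : ℤ | ac M (w ^ i) (ac M o⁻¹ d) ∈ VX X}).Finite := by
    refine Set.Finite.biUnion (L.finite_toSet.subset fun d hd => hd.1) fun d hd => ?_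
    refine hfin _ ((hL d hd.1).ac _) ?_
    rw [← ac_mul, mul_inv_cancel, ac_one]
    exact hd.2
  refine hfin'.subset fun i hi => ?_
  by_contra hcon
  apply hi
  have h4 := hcmp X c hc (w ^ i * o⁻¹) fun d hd h5 => by
    by_contra h6
    apply hcon
    simp only [Set.mem_iUnion]
    refine ⟨d, ⟨hd, h6⟩, ?_⟩
    rw [ac_mul] at h5
    exact h5
  rw [inv_mul_cancel_right, hx, map_one, coc_one hc] at h4
  exact h4

theorem hasHom {C : ∀ (G : Type) [Group G], Prop} (hC : ExtClass C) [Finite S] {X : Set S}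
    (hX : X ≠ Set.univ) (ih : ∀ Y : Set S, Y ≠ Set.univ → C (ArtinGroup (res M Y)))
    (w : M.Group) : HasHom C (Hw (pr M) w) (toAll M X).range := by
  obtain ⟨c, hc⟩ := exists_coc (M := M) X
  by_cases hw : ∃ k : ℕ, 1 ≤ k ∧ w ^ k ∈ WX M X
  · obtain ⟨k, hk, hk'⟩ := hw
    refine HasHom.of_pow hC.toClosedClass hk ?_
    obtain ⟨r, hr⟩ := exists_hom (o := 1) (w := w ^ k) hc (by
      rw [one_mul, inv_one, mul_one]
      exact fun g a => coc_left hc hk' g a)
    refine ⟨_, _, r, ih X hX, ?_⟩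
    rintro x ⟨y, hy⟩ h
    rw [hr, ← hy, coc_toAll hc] at h
    rw [← hy, h, map_one]
  · push Not at hw
    obtain ⟨k, Y, o, hk, hY, ho, ⟨a, ha, z, haz, hz⟩, hfin⟩ := exists_core X w
    obtain ⟨cY, hcY⟩ := exists_coc (M := M) Y
    refine HasHom.of_pow hC.toClosedClass hk ?_
    obtain ⟨r, hr⟩ := exists_hom (o := o) (w := w ^ k) hcY (by
      rw [haz]
      exact mul_mem (fun g b => coc_left hcY ha g b) (fun g b => coc_fix hcY hz g b))
    obtain ⟨e, he⟩ := exists_exp (p := pr M) (w := w ^ k) (fun j hj h1 =>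
      hw (k * j) (Nat.mul_pos hk hj) (by rw [pow_mul, h1]; exact one_mem _))
    obtain ⟨F, hF⟩ := exists_wr hc e he
    refine ⟨_, _, (F.prod r).rangeRestrict, ?_, ?_⟩
    · refine image_mem hC (ih X hX) (ih Y (hY hX)) F r fun x h1 h2 => ?_
      rw [hr] at h1
      have h3 := finite_supp (w := w ^ k) hc hcY ho (fun d hd h => by
        have := hfin d hd h
        simpa only [zpow_mul, zpow_natCast] using this) h1
      refine h3.subset fun i hi => ?_
      have hi' : (F x).left i ≠ 1 := hi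
      rw [(hF x).2 i] at hi'
      exact hi'
    · rintro x ⟨y, hy⟩ h
      have h1 : (F.prod r) x = 1 := congrArg Subtype.val h
      have h2 : F x = 1 := congrArg Prod.fst h1
      have h3 := (hF x).2 0
      rw [h2, zpow_zero, ← hy, coc_toAll hc] at h3
      rw [← hy, ← h3]
      exact map_one _

theorem vertex_hom {C : ∀ (G : Type) [Group G], Prop} (hC : ExtClass C) [Finite S] {X : Set S}
    (hX : X ≠ Set.univ) (ih : ∀ Y : Set S, Y ≠ Set.univ → C (ArtinGroup (res M Y)))
    (w : M.Group) :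
    ∃ (Q : Type) (_ : Group Q) (f : (Subgroup.zpowers w).comap (pr M) →* Q), C Q ∧
      ∀ x : (Subgroup.zpowers w).comap (pr M), x.1 ∈ (toAll M X).range → f x = 1 → x = 1 := by
  obtain ⟨Q, _, f, hQ, hf⟩ := hasHom hC hX ih w
  exact ⟨Q, _, f, hQ, fun x hx h => Subtype.ext (hf x hx h)⟩

end Pool.Agent.AIR
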